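import Pool.Agent.P8H14.GL.L1a
import Pool.Agent.P8H14.QP.B9

set_option autoImplicit false

/-!
# The Liouville function in primitive characters, double smoothing (the bound of one smoothed sum)
-/

open Complex Filter Topology Set MeasureTheory Metric
open scoped Real FourierTransform

namespace Pool.Agent.P8H14.GL

open Pool.Agent.W66 Pool.Agent.W66L
open Pool.Agent.P8H13.GK
open Pool.Agent.H373R2.T7 (liR liR_norm)
open Pool.Agent.P8H14.QP (awc la LR LR_apply SX SX_eq SX_decomp TA TA_bound TS TS_bound FG FG_continuous FG_compact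
  FG_sq_integrable dispersionG GX)
open Pool.Agent.P8H14.CF (triC_norm int_cc conv_swap gP gP_continuous gP_compact gP_zero gP_crude gP_small gP_sq)

lemma SX_SY {r : ℕ} (ψ : DirichletCharacter ℂ r) (h : ℝ) (N : ℕ) (z : ℝ) : SX ψ h N z = SY (la ψ) h N z := by
  unfold SX SY Pool.Agent.TH823.PS.gen la
  refine Finset.sum_congr rfl fun n _ => ?_
  push_cast
  ring

lemma la_norm {r : ℕ} (ψ : DirichletCharacter ℂ r) (n : ℕ) : ‖la ψ n‖ ≤ 1 := by
  unfold la
  rw [norm_mul]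
  calc ‖ψ (n : ZMod r)‖ * ‖liR n‖ ≤ 1 * 1 := mul_le_mul (ψ.norm_le_one _) (liR_norm n) (norm_nonneg _) zero_le_one
    _ = 1 := one_mul 1

/-- the decomposition of the twisted sum -/
lemma SY_dec {r : ℕ} [NeZero r] {ψ : DirichletCharacter ℂ r} (hψ : ψ ≠ 1) {h y : ℝ} (hh : 0 < h) (hh1 : h ≤ 1)
    (w N u0 U : ℕ) (hw : 1 ≤ w) (hu : u0 ≤ U)
    (hU : y + h ≤ U) (hN : Real.exp (U + 1) ≤ N) (hZ : Real.log w + u0 + 2 ≤ y) :
    ‖SY (la ψ) h N y - ∑ u ∈ Finset.Icc u0 U, FG (la ψ) u h N (Finset.Ioc 0 N) (awc ψ w) y‖ ≤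
      1 / h * Real.exp (-(y - 1) / 2) * (1 + Real.log N) * w +
      (1 + u0) * (w * (r * (48 * 1 * (Real.exp (u0 - y) / h ^ 2)))) := by
  have hN0 : (0 : ℝ) < N := lt_of_lt_of_le (Real.exp_pos _) hN
  have hNn : 1 ≤ N := by exact_mod_cast (Nat.cast_pos.1 hN0)
  have h1 := SX_decomp ψ w (y := y) hh N (by
    refine le_trans (Real.exp_le_exp.2 ?_) hN
    linarith) u0 U hu hU
  rw [SX_SY] at h1
  rw [h1, add_sub_cancel_right]
  refine (norm_add_le _ _).trans (add_le_add (TA_bound ψ w hh hh1 N hNn) ?_)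
  apply TS_bound ψ w u0 h N y (by positivity)
  intro x hx1 hx2
  have h2 := gP_small hψ hw hh hh1 N (x := x) (by linarith) (by
    refine le_trans (Real.exp_le_exp.2 ?_) hN
    linarith)
  have h3 : ‖ggC h (Finset.Ioc 0 N) (awc ψ w) x‖ ≤ w * (r * (48 * 1 * (Real.exp (-x) / h ^ 2))) := h2
  refine h3.trans ?_
  have : Real.exp (-x) ≤ Real.exp (u0 - y) := Real.exp_le_exp.2 (by linarith)
  gcongr

/-- the convolution identity -/
lemma SY_id {r : ℕ} (ψ : DirichletCharacter ℂ r) {h y : ℝ} (hh : 0 < h) (hh1 : h ≤ 1)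
    (w N : ℕ) (hN1 : 1 ≤ N) (hN : Real.exp (y + h) ≤ N) :
    ‖SY (la ψ) h N y - ∑ m ∈ Finset.Ioc 0 N, (((LR m / m : ℝ) : ℂ) * ψ (m : ZMod r)) *
      gP ψ w h N (y - Real.log m)‖ ≤ 1 / h * Real.exp (-(y - 1) / 2) * (1 + Real.log N) * w := by
  have h1 := SX_eq ψ w hh N hN
  rw [SX_SY] at h1
  have h2 : SY (la ψ) h N y - ∑ m ∈ Finset.Ioc 0 N, (((LR m / m : ℝ) : ℂ) * ψ (m : ZMod r)) *
      gP ψ w h N (y - Real.log m) = TA ψ w h N y := by
    rw [h1]
    unfold gP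
    ring
  rw [h2]
  exact TA_bound ψ w hh hh1 N hN1

/-- commuting the two smoothings -/
lemma swap_la {r : ℕ} (ψ : DirichletCharacter ℂ r) (w : ℕ) {h : ℝ} (hh : 0 < h) (N : ℕ) (z : ℝ) :
    ∫ s, (∑ m ∈ Finset.Ioc 0 N, (((LR m / m : ℝ) : ℂ) * ψ (m : ZMod r)) * gP ψ w h N (z - s - Real.log m)) * triC h s =
      ∫ s, SY (la ψ) h N (z - s) * gP ψ w h N s := by
  have h1 : ∀ s, (∑ m ∈ Finset.Ioc 0 N, (((LR m / m : ℝ) : ℂ) * ψ (m : ZMod r)) * gP ψ w h N (z - s - Real.log m)) *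
      triC h s = ∑ m ∈ Finset.Ioc 0 N, (((LR m / m : ℝ) : ℂ) * ψ (m : ZMod r)) *
        (gP ψ w h N (z - Real.log m - s) * triC h s) := by
    intro s
    rw [Finset.sum_mul]
    refine Finset.sum_congr rfl fun m _ => ?_
    rw [show z - s - Real.log m = z - Real.log m - s by ring]
    ring
  have h2 : ∀ s, SY (la ψ) h N (z - s) * gP ψ w h N s = ∑ m ∈ Finset.Ioc 0 N,
      (((LR m / m : ℝ) : ℂ) * ψ (m : ZMod r)) * (triC h (z - Real.log m - s) * gP ψ w h N s) := by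
    intro s
    unfold SY la
    rw [Finset.sum_mul]
    refine Finset.sum_congr rfl fun m hm => ?_
    rw [show z - s - Real.log m = z - Real.log m - s by ring, ← LR_apply (Finset.mem_Ioc.1 hm).1]
    push_cast
    ring
  simp_rw [h1, h2]
  rw [integral_finsetSum, integral_finsetSum]
  · refine Finset.sum_congr rfl fun m _ => ?_
    rw [integral_const_mul, integral_const_mul, conv_swap]
  · intro m _
    apply Integrable.const_mul
    apply int_cc
    · exact ((triC_continuous h).comp (by fun_prop)).mul (gP_continuous ψ w h N)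
    · exact (gP_compact ψ w hh N).mul_left
  · intro m _
    apply Integrable.const_mul
    apply int_cc
    · exact ((gP_continuous ψ w h N).comp (by fun_prop)).mul (triC_continuous h)
    · exact (triC_compact hh).mul_left

/-- the first replacement -/
lemma S2_first {r : ℕ} (ψ : DirichletCharacter ℂ r) {h z : ℝ} (hh : 0 < h) (hh1 : h ≤ 1)
    (w N : ℕ) (hzN : Real.exp (z + 2) ≤ N) :
    ‖S2 (la ψ) h N z - ∫ s, SY (la ψ) h N (z - s) * gP ψ w h N s‖ ≤
      1 / h * Real.exp (-(z - 2) / 2) * (1 + Real.log N) * w := by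
  have hN0 : (0 : ℝ) < N := lt_of_lt_of_le (Real.exp_pos _) hzN
  have hNn : 1 ≤ N := by exact_mod_cast (Nat.cast_pos.1 hN0)
  have hLN : 0 ≤ Real.log N := Real.log_natCast_nonneg _
  set S : ℝ → ℂ := fun y => ∑ m ∈ Finset.Ioc 0 N, (((LR m / m : ℝ) : ℂ) * ψ (m : ZMod r)) *
    gP ψ w h N (y - Real.log m) with hS
  have hSc : Continuous S := by
    rw [hS]
    apply continuous_finsetSum
    intro m _
    exact continuous_const.mul ((gP_continuous ψ w h N).comp (by fun_prop))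
  have h1 := swap_la ψ w hh N z
  rw [← h1]
  unfold S2
  have i1 : Integrable fun s => SY (la ψ) h N (z - s) * triC h s := by
    apply int_cc
    · exact ((SY_continuous (la ψ) h N).comp (by fun_prop)).mul (triC_continuous h)
    · exact (triC_compact hh).mul_left
  have i2 : Integrable fun s => S (z - s) * triC h s := by
    apply int_cc
    · exact (hSc.comp (by fun_prop)).mul (triC_continuous h)
    · exact (triC_compact hh).mul_left
  have e1 : (∫ s, SY (la ψ) h N (z - s) * triC h s) - ∫ s, S (z - s) * triC h s =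
      ∫ s, (SY (la ψ) h N (z - s) - S (z - s)) * triC h s := by
    rw [← integral_sub i1 i2]
    refine integral_congr_ae (Eventually.of_forall fun s => ?_)
    simp only
    ring
  have e2 : (∫ s, (∑ m ∈ Finset.Ioc 0 N, (((LR m / m : ℝ) : ℂ) * ψ (m : ZMod r)) *
      gP ψ w h N (z - s - Real.log m)) * triC h s) = ∫ s, S (z - s) * triC h s := rfl
  rw [e2, e1]
  set e0 : ℝ := 1 / h * Real.exp (-(z - 2) / 2) * (1 + Real.log N) * w with he0
  have h2 : ∀ s, ‖(SY (la ψ) h N (z - s) - S (z - s)) * triC h s‖ ≤ e0 * tri h s := by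
    intro s
    rw [norm_mul, triC_norm hh]
    by_cases hs : h ≤ |s|
    · rw [tri_zero_of hh hs, mul_zero, mul_zero]
    · rw [not_le, abs_lt] at hs
      apply mul_le_mul_of_nonneg_right _ (tri_nonneg hh s)
      have h3 := SY_id ψ hh hh1 w N hNn (y := z - s) (by
        refine le_trans (Real.exp_le_exp.2 ?_) hzN
        linarith)
      refine h3.trans ?_
      have h4 : Real.exp (-(z - s - 1) / 2) ≤ Real.exp (-(z - 2) / 2) := Real.exp_le_exp.2 (by linarith)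
      rw [he0]
      gcongr
  calc ‖∫ s, (SY (la ψ) h N (z - s) - S (z - s)) * triC h s‖ ≤ ∫ s, e0 * tri h s := by
        apply norm_integral_le_of_norm_le ((tri_integrable hh).const_mul _)
        exact Eventually.of_forall h2
    _ = e0 := by rw [integral_const_mul, integral_tri hh, mul_one]

/-- the pointwise bound of the product -/
lemma prod_la {r : ℕ} [NeZero r] {ψ : DirichletCharacter ℂ r} (hψ : ψ ≠ 1) {h z E : ℝ} (hh : 0 < h) (hh1 : h ≤ 1)
    (w N u0 U : ℕ) (hw : 1 ≤ w) (hu : u0 ≤ U) (hU : z + 3 ≤ U) (hN : Real.exp (U + 1) ≤ N)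
    (hZ : Real.log w + u0 + 3 ≤ z / 2)
    (hE1 : (1 / h * Real.exp (-(z / 2 - 1) / 2) * (1 + Real.log N) * w +
      (1 + u0) * (w * (r * (48 * 1 * (Real.exp (u0 - z / 2) / h ^ 2))))) * (r * ((1 + Real.log N) ^ 2 / h)) ≤ E)
    (hE2 : (1 + Real.log N) / h * (w * (r * (48 * 1 * (Real.exp (-(z / 2)) / h ^ 2)))) ≤ E) (s : ℝ) :
    ‖SY (la ψ) h N (z - s) * gP ψ w h N s‖ ≤
      ∑ u ∈ Finset.Icc u0 U, ‖FG (la ψ) u h N (Finset.Ioc 0 N) (awc ψ w) (z - s)‖ * ‖gP ψ w h N s‖ +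
        (Set.Icc (-h) (z + h)).indicator (fun _ => E) s := by
  have hlw : 0 ≤ Real.log w := Real.log_nonneg (by exact_mod_cast hw)
  have hu0' : (0 : ℝ) ≤ u0 := Nat.cast_nonneg _
  have hN0 : (0 : ℝ) < N := lt_of_lt_of_le (Real.exp_pos _) hN
  have hNn : 1 ≤ N := by exact_mod_cast (Nat.cast_pos.1 hN0)
  have hlogN : 0 ≤ Real.log N := Real.log_natCast_nonneg N
  have hE0 : 0 ≤ E := le_trans (by positivity) hE2
  have hsum0 : 0 ≤ ∑ u ∈ Finset.Icc u0 U, ‖FG (la ψ) u h N (Finset.Ioc 0 N) (awc ψ w) (z - s)‖ * ‖gP ψ w h N s‖ :=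
    Finset.sum_nonneg fun u _ => by positivity
  have hind : 0 ≤ (Set.Icc (-h) (z + h)).indicator (fun _ => E) s := indicator_nonneg (fun _ _ => hE0) _
  rcases le_or_gt s (-h) with h1 | h1
  · rw [gP_zero ψ w hh N h1, mul_zero, norm_zero]
    simp only [mul_zero, Finset.sum_const_zero, zero_add]
    exact hind
  rcases lt_or_ge (z + h) s with h2 | h2
  · rw [SY_zero (la ψ) hh N (by linarith), zero_mul, norm_zero]
    exact add_nonneg hsum0 hind
  have hmem : s ∈ Set.Icc (-h) (z + h) := ⟨h1.le, h2⟩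
  rw [indicator_of_mem hmem]
  rcases le_or_gt s (z / 2) with h3 | h3
  · have h4 := SY_dec hψ hh hh1 w N u0 U hw hu (y := z - s) (by linarith) hN (by linarith)
    set Y := SY (la ψ) h N (z - s) with hY
    set F := ∑ u ∈ Finset.Icc u0 U, FG (la ψ) u h N (Finset.Ioc 0 N) (awc ψ w) (z - s) with hF
    have h5 : ‖Y - F‖ ≤ 1 / h * Real.exp (-(z / 2 - 1) / 2) * (1 + Real.log N) * w +
      (1 + u0) * (w * (r * (48 * 1 * (Real.exp (u0 - z / 2) / h ^ 2)))) := by
      refine h4.trans ?_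
      have e1 : Real.exp (-(z - s - 1) / 2) ≤ Real.exp (-(z / 2 - 1) / 2) := Real.exp_le_exp.2 (by linarith)
      have e2 : Real.exp (u0 - (z - s)) ≤ Real.exp (u0 - z / 2) := Real.exp_le_exp.2 (by linarith)
      gcongr
    have h6 := gP_crude hψ w hh N hNn s
    have h7 : ‖F‖ * ‖gP ψ w h N s‖ ≤ ∑ u ∈ Finset.Icc u0 U,
        ‖FG (la ψ) u h N (Finset.Ioc 0 N) (awc ψ w) (z - s)‖ * ‖gP ψ w h N s‖ := by
      rw [← Finset.sum_mul]
      exact mul_le_mul_of_nonneg_right (norm_sum_le _ _) (norm_nonneg _)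
    have h8 : ‖Y - F‖ * ‖gP ψ w h N s‖ ≤ E := by
      refine le_trans (mul_le_mul h5 h6 (norm_nonneg _) ?_) hE1
      exact (norm_nonneg _).trans h5
    rw [norm_mul]
    have h9 : ‖Y‖ ≤ ‖F‖ + ‖Y - F‖ := by
      have := norm_add_le F (Y - F)
      rwa [add_sub_cancel] at this
    calc ‖Y‖ * ‖gP ψ w h N s‖ ≤ (‖F‖ + ‖Y - F‖) * ‖gP ψ w h N s‖ :=
          mul_le_mul_of_nonneg_right h9 (norm_nonneg _)
      _ = ‖F‖ * ‖gP ψ w h N s‖ + ‖Y - F‖ * ‖gP ψ w h N s‖ := by ring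
      _ ≤ _ := add_le_add h7 h8
  · have h4 := SY_crude (la_norm ψ) hh hNn (z - s)
    have h5 := gP_small hψ hw hh hh1 N (x := s) (by linarith) (by
      refine le_trans (Real.exp_le_exp.2 ?_) hN
      linarith)
    have h6 : ‖gP ψ w h N s‖ ≤ w * (r * (48 * 1 * (Real.exp (-(z / 2)) / h ^ 2))) := by
      refine h5.trans ?_
      have : Real.exp (-s) ≤ Real.exp (-(z / 2)) := Real.exp_le_exp.2 (by linarith)
      gcongr
    rw [norm_mul]
    have h7 : ‖SY (la ψ) h N (z - s)‖ * ‖gP ψ w h N s‖ ≤ E :=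
      le_trans (mul_le_mul h4 h6 (norm_nonneg _) (by positivity)) hE2
    linarith

/-- one piece -/
lemma piece_la {r : ℕ} [NeZero r] (ψ : DirichletCharacter ℂ r) (w : ℕ) {h z M : ℝ} (hh : 0 < h) (N : ℕ) {u : ℝ}
    (hN : Real.exp (u + 1) ≤ N) (hM0 : 0 < M)
    (hM : ∀ ξ : ℝ, ‖GX (la ψ) u (2 * π * ξ)‖ * ‖𝓕 (boxC h) ξ‖ ≤ M) :
    Integrable (fun s => ‖FG (la ψ) u h N (Finset.Ioc 0 N) (awc ψ w) (z - s)‖ * ‖gP ψ w h N s‖) ∧
    ∫ s, ‖FG (la ψ) u h N (Finset.Ioc 0 N) (awc ψ w) (z - s)‖ * ‖gP ψ w h N s‖ ≤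
      M * ∫ x, ‖bbC h (Finset.Ioc 0 N) (awc ψ w) x‖ ^ 2 := by
  set L := Finset.Ioc 0 N with hL
  set c := awc ψ w with hc
  set F : ℝ → ℂ := FG (la ψ) u h N L c with hF
  have hFc : Continuous F := FG_continuous (la ψ) h u N L c
  have hFs : HasCompactSupport F := FG_compact (la ψ) hh u N L c
  have hgc := gP_continuous ψ w h N
  have hgs := gP_compact ψ w hh N
  have hF2 : Integrable fun x => ‖F x‖ ^ 2 := FG_sq_integrable (la ψ) hh u N L c
  have hg2 : Integrable fun x => ‖gP ψ w h N x‖ ^ 2 := by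
    apply (hgc.norm.pow 2).integrable_of_hasCompactSupport
    have h1 := hgs.norm
    have h2 : ((fun x => ‖gP ψ w h N x‖) ^ 2) = fun x => ‖gP ψ w h N x‖ * ‖gP ψ w h N x‖ := by
      ext x
      simp only [Pi.pow_apply]
      ring
    rw [h2]
    exact h1.mul_left
  have hFz : Integrable fun s => ‖F (z - s)‖ ^ 2 := hF2.comp_sub_left z
  have hFzi : ∫ s, ‖F (z - s)‖ ^ 2 = ∫ s, ‖F s‖ ^ 2 := integral_sub_left_eq_self (fun s => ‖F s‖ ^ 2) volume z
  have hprod : Integrable fun s => ‖F (z - s)‖ * ‖gP ψ w h N s‖ := by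
    apply Continuous.integrable_of_hasCompactSupport
    · exact (hFc.comp (by fun_prop : Continuous fun s => z - s)).norm.mul hgc.norm
    · exact hgs.norm.mul_left
  refine ⟨hprod, ?_⟩
  have hd := dispersionG (la ψ) hh N hN L c hM0.le hM
  have hg := gP_sq ψ w hh N
  set I := ∫ x, ‖bbC h L c x‖ ^ 2 with hI
  have hpt : ∀ s, ‖F (z - s)‖ * ‖gP ψ w h N s‖ ≤ (1 / (2 * M)) * ‖F (z - s)‖ ^ 2 + (M / 2) * ‖gP ψ w h N s‖ ^ 2 := by
    intro s
    set a := ‖F (z - s)‖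
    set b := ‖gP ψ w h N s‖
    have h1 : 0 ≤ (a - M * b) ^ 2 := sq_nonneg _
    have h2 : (1 / (2 * M)) * a ^ 2 + (M / 2) * b ^ 2 - a * b = (a - M * b) ^ 2 / (2 * M) := by
      field_simp
      ring
    have h3 : 0 ≤ (a - M * b) ^ 2 / (2 * M) := by positivity
    linarith
  calc ∫ s, ‖F (z - s)‖ * ‖gP ψ w h N s‖ ≤ ∫ s, ((1 / (2 * M)) * ‖F (z - s)‖ ^ 2 + (M / 2) * ‖gP ψ w h N s‖ ^ 2) :=
        integral_mono hprod ((hFz.const_mul _).add (hg2.const_mul _)) hpt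
    _ = (1 / (2 * M)) * (∫ s, ‖F s‖ ^ 2) + (M / 2) * (∫ s, ‖gP ψ w h N s‖ ^ 2) := by
        rw [integral_add (hFz.const_mul _) (hg2.const_mul _), integral_const_mul, integral_const_mul, hFzi]
    _ ≤ (1 / (2 * M)) * (M ^ 2 * I) + (M / 2) * I := by gcongr
    _ = M * I := by field_simp; ring

/-- **the smoothed sum of one character** -/
theorem S2_le {r : ℕ} [NeZero r] {ψ : DirichletCharacter ℂ r} (hψ : ψ ≠ 1) {h z E M : ℝ} (hh : 0 < h) (hh1 : h ≤ 1)
    (w N u0 U : ℕ) (hw : 1 ≤ w) (hu : u0 ≤ U) (hU : z + 3 ≤ U) (hN : Real.exp (U + 1) ≤ N)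
    (hZ : Real.log w + u0 + 3 ≤ z / 2)
    (hE1 : (1 / h * Real.exp (-(z / 2 - 1) / 2) * (1 + Real.log N) * w +
      (1 + u0) * (w * (r * (48 * 1 * (Real.exp (u0 - z / 2) / h ^ 2))))) * (r * ((1 + Real.log N) ^ 2 / h)) ≤ E)
    (hE2 : (1 + Real.log N) / h * (w * (r * (48 * 1 * (Real.exp (-(z / 2)) / h ^ 2)))) ≤ E)
    (hE3 : 1 / h * Real.exp (-(z - 2) / 2) * (1 + Real.log N) * w ≤ E)
    (hM0 : 0 < M) (hM : ∀ u ∈ Finset.Icc u0 U, ∀ ξ : ℝ, ‖GX (la ψ) (u : ℝ) (2 * π * ξ)‖ * ‖𝓕 (boxC h) ξ‖ ≤ M) :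
    ‖S2 (la ψ) h N z‖ ≤ (z + 3) * E + (U + 1) * (M * ∫ x, ‖bbC h (Finset.Ioc 0 N) (awc ψ w) x‖ ^ 2) := by
  have hlw : 0 ≤ Real.log w := Real.log_nonneg (by exact_mod_cast hw)
  have hu0' : (0 : ℝ) ≤ u0 := Nat.cast_nonneg _
  have hN0 : (0 : ℝ) < N := lt_of_lt_of_le (Real.exp_pos _) hN
  have hlogN : 0 ≤ Real.log N := Real.log_natCast_nonneg N
  have hE0 : 0 ≤ E := le_trans (by positivity) hE2
  have hz6 : 6 ≤ z := by linarith
  have h1 := S2_first ψ hh hh1 w N (z := z) (by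
    refine le_trans (Real.exp_le_exp.2 ?_) hN
    linarith)
  set I := ∫ x, ‖bbC h (Finset.Ioc 0 N) (awc ψ w) x‖ ^ 2 with hI
  have hpiece : ∀ u ∈ Finset.Icc u0 U,
      Integrable (fun s => ‖FG (la ψ) u h N (Finset.Ioc 0 N) (awc ψ w) (z - s)‖ * ‖gP ψ w h N s‖) ∧
      ∫ s, ‖FG (la ψ) u h N (Finset.Ioc 0 N) (awc ψ w) (z - s)‖ * ‖gP ψ w h N s‖ ≤ M * I := by
    intro u hu
    apply piece_la ψ w hh N _ hM0 (hM u hu)
    refine le_trans (Real.exp_le_exp.2 ?_) hN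
    have : (u : ℝ) ≤ U := by exact_mod_cast (Finset.mem_Icc.1 hu).2
    linarith
  have hind : Integrable ((Set.Icc (-h) (z + h)).indicator fun _ : ℝ => E) := by
    rw [integrable_indicator_iff measurableSet_Icc]
    exact integrableOn_const (by simp) (by simp)
  have h2 : ‖∫ s, SY (la ψ) h N (z - s) * gP ψ w h N s‖ ≤ (z + 2) * E + (U + 1) * (M * I) := by
    calc ‖∫ s, SY (la ψ) h N (z - s) * gP ψ w h N s‖ ≤ ∫ s, (∑ u ∈ Finset.Icc u0 U,
          ‖FG (la ψ) u h N (Finset.Ioc 0 N) (awc ψ w) (z - s)‖ * ‖gP ψ w h N s‖ +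
          (Set.Icc (-h) (z + h)).indicator (fun _ => E) s) := by
          apply norm_integral_le_of_norm_le
          · exact (integrable_finsetSum _ fun u hu => (hpiece u hu).1).add hind
          · exact Eventually.of_forall (prod_la hψ hh hh1 w N u0 U hw hu hU hN hZ hE1 hE2)
      _ = ∑ u ∈ Finset.Icc u0 U, (∫ s, ‖FG (la ψ) u h N (Finset.Ioc 0 N) (awc ψ w) (z - s)‖ * ‖gP ψ w h N s‖) +
          (z + 2 * h) * E := by
          rw [integral_add (integrable_finsetSum _ fun u hu => (hpiece u hu).1) hind,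
            integral_finsetSum _ fun u hu => (hpiece u hu).1, integral_indicator measurableSet_Icc,
            setIntegral_const]
          congr 1
          rw [Real.volume_real_Icc_of_le (by linarith), smul_eq_mul]
          ring
      _ ≤ ∑ u ∈ Finset.Icc u0 U, M * I + (z + 2) * E := by
          apply add_le_add (Finset.sum_le_sum fun u hu => (hpiece u hu).2)
          apply mul_le_mul_of_nonneg_right _ hE0
          linarith
      _ ≤ _ := by
          rw [Finset.sum_const, nsmul_eq_mul, add_comm]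
          have hI0 : 0 ≤ I := integral_nonneg fun x => by positivity
          have : ((Finset.Icc u0 U).card : ℝ) ≤ U + 1 := by
            rw [Nat.card_Icc]
            have : U + 1 - u0 ≤ U + 1 := Nat.sub_le _ _
            exact_mod_cast this
          gcongr
  have h3 : ‖S2 (la ψ) h N z‖ ≤ ‖S2 (la ψ) h N z - ∫ s, SY (la ψ) h N (z - s) * gP ψ w h N s‖ +
      ‖∫ s, SY (la ψ) h N (z - s) * gP ψ w h N s‖ := by
    have := norm_add_le (S2 (la ψ) h N z - ∫ s, SY (la ψ) h N (z - s) * gP ψ w h N s)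
      (∫ s, SY (la ψ) h N (z - s) * gP ψ w h N s)
    rwa [sub_add_cancel] at this
  have h4 := h1.trans hE3
  calc ‖S2 (la ψ) h N z‖ ≤ E + ((z + 2) * E + (U + 1) * (M * I)) := h3.trans (add_le_add h4 h2)
    _ = _ := by ring

end Pool.Agent.P8H14.GL
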