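import Pool.Agent.P8H14.GL.L1b
import Pool.Agent.P8H14.CF.E4

set_option autoImplicit false

/-!
# The Liouville function in primitive characters: the sum over all characters
-/

open Complex Filter Topology Set MeasureTheory Metric
open scoped Real FourierTransform

namespace Pool.Agent.P8H14.GL

open Pool.Agent.W66 Pool.Agent.W66L
open Pool.Agent.P8H13.GK
open Pool.Agent.P8H14.QP (awc la GX bb_all pr_ne_one sum_pr_le)
open Pool.Agent.P8H14.CF (pr pr_eq)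

/-- **one character** -/
theorem one_la {r : ℕ} [NeZero r] {ψ : DirichletCharacter ℂ r} (hψ : ψ ≠ 1) {h E Mb : ℝ} (hh : 0 < h)
    (hh2 : 2 * h ≤ 1) (w P u0 U lo Mx : ℕ) (hw : 1 ≤ w) (hu : u0 ≤ U) (hlo : 1 ≤ h * lo)
    (hU : Real.log ((Mx + 1 : ℕ) : ℝ) + 3 ≤ U) (hP : Real.exp (U + 1) ≤ P) (hP3 : 3 * (Mx + 1) ≤ P)
    (hZ : Real.log w + u0 + 3 ≤ Real.log lo / 2)
    (hE1 : (1 / h * Real.exp (-(Real.log lo / 2 - 1) / 2) * (1 + Real.log P) * w +
      (1 + u0) * (w * (r * (48 * 1 * (Real.exp (u0 - Real.log lo / 2) / h ^ 2))))) *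
        (r * ((1 + Real.log P) ^ 2 / h)) ≤ E)
    (hE2 : (1 + Real.log P) / h * (w * (r * (48 * 1 * (Real.exp (-(Real.log lo / 2)) / h ^ 2)))) ≤ E)
    (hE3 : 1 / h * Real.exp (-(Real.log lo - 2) / 2) * (1 + Real.log P) * w ≤ E)
    (hM0 : 0 < Mb) (hM : ∀ u ∈ Finset.Icc u0 U, ∀ ξ : ℝ, ‖GX (la ψ) (u : ℝ) (2 * π * ξ)‖ * ‖𝓕 (boxC h) ξ‖ ≤ Mb)
    {M : ℕ} (hMM : M ≤ Mx) :
    ‖∑ n ∈ Finset.Icc 1 M, la ψ n‖ ≤
      (Mx + 1) * (U * E + (U + 1) * (Mb * ∫ x, ‖bbC h (Finset.Ioc 0 P) (awc ψ w) x‖ ^ 2)) +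
        320 * h * (Mx + 1) + lo := by
  have hh1 : h ≤ 1 := by linarith
  have hlo1 : 1 ≤ lo := by
    by_contra hc
    have : lo = 0 := by omega
    rw [this] at hlo
    norm_num at hlo
  have hLg : 0 ≤ Real.log P := Real.log_natCast_nonneg _
  set I := ∫ x, ‖bbC h (Finset.Ioc 0 P) (awc ψ w) x‖ ^ 2 with hI
  have hI0 : 0 ≤ I := integral_nonneg fun x => by positivity
  have hE0 : 0 ≤ E := le_trans (by positivity) hE2
  have htriv : ∀ a b : ℕ, ‖∑ n ∈ Finset.Ico a b, la ψ n‖ ≤ b := by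
    intro a b
    refine (norm_sum_le _ _).trans ((Finset.sum_le_card_nsmul _ _ _ fun n _ => la_norm ψ n).trans ?_)
    rw [nsmul_eq_mul, Nat.card_Ico, mul_one]
    exact_mod_cast Nat.sub_le _ _
  have hMx : (M : ℝ) ≤ Mx := by exact_mod_cast hMM
  have e : Finset.Icc 1 M = Finset.Ico 1 (M + 1) := by
    ext n; simp only [Finset.mem_Icc, Finset.mem_Ico]; omega
  rw [e]
  rcases le_or_gt (M + 1) lo with h5 | h5
  · have h6 := htriv 1 (M + 1)
    have h7 : ((M + 1 : ℕ) : ℝ) ≤ lo := by exact_mod_cast h5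
    have h8 : 0 ≤ (Mx + 1) * (U * E + (U + 1) * (Mb * I)) + 320 * h * (Mx + 1) := by positivity
    linarith
  · rw [← Finset.sum_Ico_consecutive _ hlo1 h5.le]
    refine (norm_add_le _ _).trans ?_
    rw [add_comm]
    apply add_le_add
    · have h6 := sharp_two (la_norm ψ) hh hh2 (N := P) (lo := lo) (hi := M + 1)
        (S := U * E + (U + 1) * (Mb * I)) hlo h5.le (by omega) (by positivity) (by
          intro z hz1 hz2
          have hz3 : z + 3 ≤ U := by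
            have : Real.log ((M + 1 : ℕ) : ℝ) ≤ Real.log ((Mx + 1 : ℕ) : ℝ) :=
              Real.log_le_log (by positivity) (by exact_mod_cast Nat.succ_le_succ hMM)
            linarith
          have hlw : 0 ≤ Real.log w := Real.log_nonneg (by exact_mod_cast hw)
          have hu0' : (0 : ℝ) ≤ u0 := Nat.cast_nonneg _
          have hz0 : 0 ≤ z + 3 := by linarith
          have t1 : Real.exp (-(z / 2)) ≤ Real.exp (-(Real.log lo / 2)) := Real.exp_le_exp.2 (by linarith)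
          have t2 : Real.exp (u0 - z / 2) ≤ Real.exp (u0 - Real.log lo / 2) := Real.exp_le_exp.2 (by linarith)
          have t3 : Real.exp (-(z / 2 - 1) / 2) ≤ Real.exp (-(Real.log lo / 2 - 1) / 2) :=
            Real.exp_le_exp.2 (by linarith)
          have t4 : Real.exp (-(z - 2) / 2) ≤ Real.exp (-(Real.log lo - 2) / 2) := Real.exp_le_exp.2 (by linarith)
          have h7 := S2_le hψ hh hh1 w P u0 U hw hu hz3 hP (by linarith) (E := E) (M := Mb)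
            (by refine le_trans ?_ hE1; gcongr) (by refine le_trans ?_ hE2; gcongr)
            (by refine le_trans ?_ hE3; gcongr) hM0 hM
          refine h7.trans ?_
          gcongr)
      refine h6.trans ?_
      have h7 : ((M + 1 : ℕ) : ℝ) ≤ Mx + 1 := by
        push_cast
        linarith
      gcongr
    · exact htriv 1 lo

/-- **all characters** -/
theorem all_la {F : ℕ} {h E Mb : ℝ} (hh : 0 < h)
    (hh2 : 2 * h ≤ 1) (w P u0 U lo Mx : ℕ) (hw : 1 ≤ w) (hu : u0 ≤ U) (hlo : 1 ≤ h * lo)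
    (hU : Real.log ((Mx + 1 : ℕ) : ℝ) + 3 ≤ U) (hP : Real.exp (U + 1) ≤ P) (hP3 : 3 * (Mx + 1) ≤ P)
    (hZ : Real.log w + u0 + 3 ≤ Real.log lo / 2) (hLS : (1 + (F : ℝ) ^ 2) / h ≤ w)
    (hE1 : (1 / h * Real.exp (-(Real.log lo / 2 - 1) / 2) * (1 + Real.log P) * w +
      (1 + u0) * (w * (F * (48 * 1 * (Real.exp (u0 - Real.log lo / 2) / h ^ 2))))) *
        (F * ((1 + Real.log P) ^ 2 / h)) ≤ E)
    (hE2 : (1 + Real.log P) / h * (w * (F * (48 * 1 * (Real.exp (-(Real.log lo / 2)) / h ^ 2)))) ≤ E)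
    (hE3 : 1 / h * Real.exp (-(Real.log lo - 2) / 2) * (1 + Real.log P) * w ≤ E)
    (hM0 : 0 < Mb) (hM : ∀ r ∈ Finset.Icc 2 F, ∀ ψ ∈ pr r, ∀ u ∈ Finset.Icc u0 U, ∀ ξ : ℝ,
      ‖GX (la ψ) (u : ℝ) (2 * π * ξ)‖ * ‖𝓕 (boxC h) ξ‖ ≤ Mb)
    {M : ℕ} (hMM : M ≤ Mx) :
    ∑ r ∈ Finset.Icc 2 F, ∑ ψ ∈ pr r, ‖∑ n ∈ Finset.Icc 1 M, la ψ n‖ ≤
      (F : ℝ) ^ 2 * ((Mx + 1) * (U * E) + 320 * h * (Mx + 1) + lo) +
        (Mx + 1) * ((U + 1) * (Mb * (96 * (1 + Real.log P) ^ 4))) := by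
  have hh1 : h ≤ 1 := by linarith
  have hLg : 0 ≤ Real.log P := Real.log_natCast_nonneg _
  have hE0 : 0 ≤ E := le_trans (by positivity) hE2
  have hP1 : 1 ≤ P := by omega
  set a : ℝ := (Mx + 1) * (U * E) + 320 * h * (Mx + 1) + lo with ha
  have ha0 : 0 ≤ a := by positivity
  set b : ℝ := (Mx + 1) * ((U + 1) * Mb) with hb
  have hb0 : 0 ≤ b := by positivity
  -- each character
  have h1 : ∀ r ∈ Finset.Icc 2 F, ∀ ψ ∈ pr r, ‖∑ n ∈ Finset.Icc 1 M, la ψ n‖ ≤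
      a + b * ∫ x, ‖bbC h (Finset.Ioc 0 P) (awc ψ w) x‖ ^ 2 := by
    intro r hr ψ hψ
    rw [Finset.mem_Icc] at hr
    haveI : NeZero r := ⟨by omega⟩
    have hψ1 : ψ ≠ 1 := pr_ne_one (by omega) (by rw [← pr_eq]; exact hψ) (by omega)
    have hrF : (r : ℝ) ≤ F := by exact_mod_cast hr.2
    have h2 := one_la hψ1 hh hh2 w P u0 U lo Mx hw hu hlo hU hP hP3 hZ (E := E) (Mb := Mb)
      (by refine le_trans ?_ hE1; gcongr) (by refine le_trans ?_ hE2; gcongr)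
      hE3 hM0 (hM r (Finset.mem_Icc.2 hr) ψ hψ) hMM
    refine h2.trans (le_of_eq ?_)
    rw [ha, hb]
    ring
  have hbb := bb_all (F := F) (w := w) (N := P) hh hh1 hP1 hLS
  have hcard := sum_pr_le F (fun r _ => a) (a := a) (b := 0) ha0 le_rfl (by
    intro r _ ψ _
    split_ifs <;> linarith)
  have hsub : Finset.Icc 2 F ⊆ Finset.Icc 1 F := Finset.Icc_subset_Icc_left (by norm_num)
  have hwt : ∀ r ∈ Finset.Icc 1 F, (1 : ℝ) ≤ (r : ℝ) / r.totient := by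
    intro r hr
    rw [Finset.mem_Icc] at hr
    have h2 : 0 < r.totient := Nat.totient_pos.2 (by omega)
    rw [le_div_iff₀ (by exact_mod_cast h2), one_mul]
    exact_mod_cast Nat.totient_le r
  calc ∑ r ∈ Finset.Icc 2 F, ∑ ψ ∈ pr r, ‖∑ n ∈ Finset.Icc 1 M, la ψ n‖
      ≤ ∑ r ∈ Finset.Icc 2 F, ∑ ψ ∈ pr r, (a + b * ∫ x, ‖bbC h (Finset.Ioc 0 P) (awc ψ w) x‖ ^ 2) :=
        Finset.sum_le_sum fun r hr => Finset.sum_le_sum fun ψ hψ => h1 r hr ψ hψ
    _ ≤ ∑ r ∈ Finset.Icc 1 F, ∑ ψ ∈ pr r, (a + b * ∫ x, ‖bbC h (Finset.Ioc 0 P) (awc ψ w) x‖ ^ 2) := by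
        apply Finset.sum_le_sum_of_subset_of_nonneg hsub
        intro r _ _
        apply Finset.sum_nonneg
        intro ψ _
        have : 0 ≤ ∫ x, ‖bbC h (Finset.Ioc 0 P) (awc ψ w) x‖ ^ 2 := integral_nonneg fun x => by positivity
        positivity
    _ ≤ ∑ r ∈ Finset.Icc 1 F, ((r : ℝ) / r.totient) *
          ∑ ψ ∈ Pool.Agent.P8H14.QP.pr r, (a + b * ∫ x, ‖bbC h (Finset.Ioc 0 P) (awc ψ w) x‖ ^ 2) := by
        apply Finset.sum_le_sum
        intro r hr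
        rw [pr_eq]
        apply le_mul_of_one_le_left _ (hwt r hr)
        apply Finset.sum_nonneg
        intro ψ _
        have : 0 ≤ ∫ x, ‖bbC h (Finset.Ioc 0 P) (awc ψ w) x‖ ^ 2 := integral_nonneg fun x => by positivity
        positivity
    _ = ∑ r ∈ Finset.Icc 1 F, ((r : ℝ) / r.totient) * ∑ ψ ∈ Pool.Agent.P8H14.QP.pr r, a +
          b * ∑ r ∈ Finset.Icc 1 F, ((r : ℝ) / r.totient) *
            ∑ ψ ∈ Pool.Agent.P8H14.QP.pr r, ∫ x, ‖bbC h (Finset.Ioc 0 P) (awc ψ w) x‖ ^ 2 := by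
        rw [Finset.mul_sum, ← Finset.sum_add_distrib]
        apply Finset.sum_congr rfl
        intro r _
        rw [Finset.sum_add_distrib, ← Finset.mul_sum]
        ring
    _ ≤ ((F : ℝ) ^ 2 * a + 0) + b * (96 * (1 + Real.log P) ^ 4) :=
        add_le_add hcard (mul_le_mul_of_nonneg_left hbb hb0)
    _ = _ := by rw [hb]; ring

end Pool.Agent.P8H14.GL
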