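import Pool.Agent.P8H14.GL.L1c
import Pool.Agent.P8H14.QP.B10

set_option autoImplicit false

/-!
# The Liouville function in primitive characters at a scale with zero free regions
-/

open Complex Filter Topology Set MeasureTheory Metric
open scoped Real FourierTransform

namespace Pool.Agent.P8H14.GL

open Pool.Agent.W66 Pool.Agent.W66L
open Pool.Agent.P8H13.GK
open Pool.Agent.P8H14.QP (la GX Zs M_bd)
open Pool.Agent.P8H14.CF (pr pr_eq)

/-- the numbers for one scale -/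
theorem L1_num {Q N : ℕ} {X q K κ : ℝ} {D A : ℕ} (hDA : D = A + 9) (hN : 1 ≤ N) (hX : X = Real.log N)
    (hq : q = Real.log Q) (hQ : 1 ≤ Q) (hqX : 1000 * q ≤ X) (hX100 : 1000 ≤ X)
    (hDX : (D : ℝ) * Real.log X + 3 ≤ q) (hκ : 0 < κ) (hκq : κ * (q * Real.log X) ≤ X / 32) (hK : 0 < K)
    (hKX : 61440 * K ≤ X ^ 2)
    (hM : ∀ u : ℝ, 2 ≤ u → κ * (q * Real.log X) ≤ u → u ≤ 3 * X → ∀ r ∈ Finset.Icc 1 Q,
      ∀ ψ ∈ Pool.Agent.P8H14.QP.pr r, ∀ ξ : ℝ,
      ‖GX (la ψ) u (2 * π * ξ)‖ * ‖𝓕 (boxC (1 / (Q : ℝ) ^ 3)) ξ‖ ≤ K * (X ^ 2 / X ^ D)) {M : ℕ} (hMM : M ≤ 4 * N) :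
    ∑ r ∈ Finset.Icc 2 Q, ∑ ψ ∈ pr r, ‖∑ n ∈ Finset.Icc 1 M, la ψ n‖ ≤ N / X ^ A := by
  have hN0 : (0 : ℝ) < N := by exact_mod_cast hN
  have hN1 : (1 : ℝ) ≤ N := by exact_mod_cast hN
  have hNX : (N : ℝ) = Real.exp X := by rw [hX, Real.exp_log hN0]
  have hXp : 0 < X := by linarith
  set α : ℝ := (Q : ℝ) with hα
  have hα1 : 1 ≤ α := by rw [hα]; exact_mod_cast hQ
  have hα0 : 0 < α := by linarith
  have hlX : 1 ≤ Real.log X := by
    rw [Real.le_log_iff_exp_le hXp]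
    have := Real.exp_one_lt_d9
    linarith
  have hαe : α = Real.exp q := by rw [hq, Real.exp_log hα0]
  have hαk : ∀ k : ℕ, α ^ k = Real.exp (k * q) := fun k => by rw [hαe, ← Real.exp_nat_mul]
  have hX9 : 0 < X ^ A := by positivity
  -- `20 X ^ D ≤ Q`
  have hXD : 20 * X ^ D ≤ α := by
    have h1 : X ^ D = Real.exp (D * Real.log X) := by rw [← Real.rpow_natCast, Real.rpow_def_of_pos hXp]; ring_nf
    have h2 : (20 : ℝ) ≤ Real.exp 3 := by
      have e : Real.exp 3 = Real.exp 1 ^ 3 := by rw [← Real.exp_nat_mul]; norm_num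
      have h3 : (2.718 : ℝ) ≤ Real.exp 1 := by
        have := Real.exp_one_gt_d9
        linarith
      rw [e]
      calc (20 : ℝ) ≤ 2.718 ^ 3 := by norm_num
        _ ≤ Real.exp 1 ^ 3 := by gcongr
    calc 20 * X ^ D ≤ Real.exp 3 * Real.exp (D * Real.log X) := by rw [h1]; gcongr
      _ = Real.exp (D * Real.log X + 3) := by rw [← Real.exp_add]; congr 1; ring
      _ ≤ α := by rw [hαe]; exact Real.exp_le_exp.2 hDX
  have hX1 : 1 ≤ X := by linarith
  have hpw : ∀ k : ℕ, k ≤ D → X ^ k ≤ X ^ D := fun k hk => pow_le_pow_right₀ hX1 hk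
  have hXA9 : 1000 ^ 9 * X ^ A ≤ X ^ D := by
    rw [hDA, pow_add, mul_comm (X ^ A)]
    gcongr
  have hXA : 6400 * X ^ A ≤ α := by
    have : 6400 * X ^ A ≤ 1000 ^ 9 * X ^ A := by gcongr; norm_num
    have : 0 ≤ X ^ D := by positivity
    linarith
  have hXAα : X ^ A ≤ α := by
    have : 0 < X ^ A := hX9
    linarith
  have hX2 : 1000 * X ≤ X ^ 2 := by
    calc 1000 * X ≤ X * X := by gcongr
      _ = X ^ 2 := by ring
  have hX2α : 20 * X ^ 2 ≤ α := by
    have := hpw 2 (by omega)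
    linarith
  have h100 : 100 ≤ α := by linarith
  -- parameters
  set h : ℝ := 1 / α ^ 3 with hh
  have hh0 : 0 < h := by positivity
  have hhinv : 1 / h = α ^ 3 := by rw [hh, one_div_one_div]
  have hα3 : α ≤ α ^ 3 := le_self_pow₀ hα1 (by norm_num)
  have hh2 : 2 * h ≤ 1 := by
    rw [hh, mul_one_div, div_le_one (by positivity)]
    linarith
  set w : ℕ := 2 * Q ^ 5 with hw
  have hwr : (w : ℝ) = 2 * α ^ 5 := by rw [hw, hα]; push_cast; ring
  have hw1 : 1 ≤ w := by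
    have : 1 ≤ Q ^ 5 := Nat.one_le_pow _ _ hQ
    omega
  have hlogw : Real.log w ≤ 1 + 5 * q := by
    rw [hwr, Real.log_mul (by norm_num) (by positivity), Real.log_pow, hq]
    have := Real.log_two_lt_d9
    push_cast
    linarith
  set u0 : ℕ := ⌈κ * (q * Real.log X)⌉₊ + 2 with hu0
  have hq0 : 0 ≤ q := by
    have : 0 ≤ (D : ℝ) * Real.log X := by positivity
    linarith
  have hκq0 : 0 ≤ κ * (q * Real.log X) := by positivity
  have hu01 : κ * (q * Real.log X) + 2 ≤ u0 := by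
    rw [hu0]
    push_cast
    have := Nat.le_ceil (κ * (q * Real.log X))
    linarith
  have hu02 : (u0 : ℝ) ≤ X / 16 := by
    rw [hu0]
    push_cast
    have := (Nat.ceil_lt_add_one hκq0).le
    linarith
  set U : ℕ := ⌈X⌉₊ + 6 with hU
  have hU1 : X + 6 ≤ U := by
    rw [hU]
    push_cast
    have := Nat.le_ceil X
    linarith
  have hU2 : (U : ℝ) ≤ X + 7 := by
    rw [hU]
    push_cast
    have := (Nat.ceil_lt_add_one hXp.le).le
    linarith
  set P : ℕ := ⌈Real.exp (U + 1)⌉₊ with hP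
  have hP1 : Real.exp (U + 1) ≤ P := Nat.le_ceil _
  have hP0 : (0 : ℝ) < P := lt_of_lt_of_le (Real.exp_pos _) hP1
  have hP2 : Real.log P ≤ X + 9 := by
    have h1 : (P : ℝ) ≤ Real.exp (U + 2) := by
      have h2 := (Nat.ceil_lt_add_one (Real.exp_pos ((U : ℝ) + 1)).le).le
      rw [← hP] at h2
      have h3 : (1 : ℝ) ≤ Real.exp (U + 1) := Real.one_le_exp (by positivity)
      have h4 : Real.exp ((U : ℝ) + 2) = Real.exp 1 * Real.exp (U + 1) := by rw [← Real.exp_add]; congr 1; ring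
      have h5 : (2 : ℝ) ≤ Real.exp 1 := by
        have := Real.exp_one_gt_d9
        linarith
      rw [h4]
      calc (P : ℝ) ≤ Real.exp (U + 1) + 1 := h2
        _ ≤ 2 * Real.exp (U + 1) := by linarith
        _ ≤ _ := by gcongr
    rw [Real.log_le_iff_le_exp hP0]
    exact h1.trans (Real.exp_le_exp.2 (by linarith))
  have hLg : 0 ≤ Real.log P := Real.log_natCast_nonneg _
  have hL1 : 1 + Real.log P ≤ 2 * X := by linarith
  have hL2 : (1 + Real.log P) ^ 2 ≤ α := by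
    calc (1 + Real.log P) ^ 2 ≤ (2 * X) ^ 2 := by gcongr
      _ = 4 * X ^ 2 := by ring
      _ ≤ α := by
          have : 0 ≤ X ^ 2 := by positivity
          linarith
  have hLα : 1 + Real.log P ≤ α := by linarith
  set lo : ℕ := ⌈Real.exp (X / 2)⌉₊ with hlo
  have hlo1 : Real.exp (X / 2) ≤ lo := Nat.le_ceil _
  have hlo0 : (0 : ℝ) < lo := lt_of_lt_of_le (Real.exp_pos _) hlo1
  have hlo2 : (lo : ℝ) ≤ 2 * Real.exp (X / 2) := by
    have h2 := (Nat.ceil_lt_add_one (Real.exp_pos (X / 2)).le).le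
    have h3 : (1 : ℝ) ≤ Real.exp (X / 2) := Real.one_le_exp (by positivity)
    linarith
  have hllo : X / 2 ≤ Real.log lo := by
    rw [Real.le_log_iff_exp_le hlo0]
    exact hlo1
  have hαX : ∀ k : ℕ, α ^ k ≤ Real.exp (k * (X / 1000)) := fun k => by
    rw [hαk]
    apply Real.exp_le_exp.2
    have : q ≤ X / 1000 := by linarith
    gcongr
  set E : ℝ := Real.exp (-(X / 10)) with hE
  -- the constants
  have hhlo : 1 ≤ h * lo := by
    rw [hh, one_div, ← div_eq_inv_mul, le_div_iff₀ (by positivity), one_mul]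
    refine ((hαX 3).trans (Real.exp_le_exp.2 ?_)).trans hlo1
    push_cast
    linarith
  have hUlog : Real.log ((4 * N + 1 : ℕ) : ℝ) + 3 ≤ U := by
    have h1 : ((4 * N + 1 : ℕ) : ℝ) ≤ Real.exp (X + 2) := by
      push_cast
      have e : Real.exp (X + 2) = N * (Real.exp 1 * Real.exp 1) := by
        rw [hNX, ← Real.exp_add, ← Real.exp_add]; congr 1; ring
      have h5 : (2.5 : ℝ) ≤ Real.exp 1 := by
        have := Real.exp_one_gt_d9
        linarith
      rw [e]
      calc (4 : ℝ) * N + 1 ≤ N * (2.5 * 2.5) := by linarith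
        _ ≤ _ := by gcongr
    have h2 : Real.log ((4 * N + 1 : ℕ) : ℝ) ≤ X + 2 := by
      rw [Real.log_le_iff_le_exp (by positivity)]
      exact h1
    linarith
  have hP3 : 3 * (4 * N + 1) ≤ P := by
    have h1 : ((3 * (4 * N + 1) : ℕ) : ℝ) ≤ P := by
      refine le_trans ?_ hP1
      have e : Real.exp (X + 7) = N * Real.exp 1 ^ 7 := by
        rw [hNX, ← Real.exp_nat_mul, ← Real.exp_add]; congr 1; push_cast; ring
      have h5 : (2 : ℝ) ≤ Real.exp 1 := by
        have := Real.exp_one_gt_d9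
        linarith
      calc ((3 * (4 * N + 1) : ℕ) : ℝ) ≤ N * 2 ^ 7 := by push_cast; linarith
        _ ≤ N * Real.exp 1 ^ 7 := by gcongr
        _ = Real.exp (X + 7) := e.symm
        _ ≤ _ := Real.exp_le_exp.2 (by linarith)
    exact_mod_cast h1
  have hZ : Real.log w + u0 + 3 ≤ Real.log lo / 2 := by linarith
  have huU : u0 ≤ U := by
    have : (u0 : ℝ) ≤ U := by linarith
    exact_mod_cast this
  have hLS : (1 + (Q : ℝ) ^ 2) / h ≤ w := by
    rw [← mul_one_div, hhinv, hwr]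
    have h1 : 1 ≤ α ^ 2 := one_le_pow₀ hα1
    calc (1 + α ^ 2) * α ^ 3 ≤ (α ^ 2 + α ^ 2) * α ^ 3 := by gcongr
      _ = 2 * α ^ 5 := by ring
  have hEk : ∀ k : ℕ, k ≤ 20 → ∀ y : ℝ, y ≤ -(X / 8) → α ^ k * Real.exp y ≤ E := by
    intro k hk y hy
    have hk' : (k : ℝ) ≤ 20 := by exact_mod_cast hk
    calc α ^ k * Real.exp y ≤ Real.exp (k * (X / 1000)) * Real.exp y := by
          have := hαX k
          gcongr
      _ = Real.exp (k * (X / 1000) + y) := by rw [← Real.exp_add]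
      _ ≤ E := by
          apply Real.exp_le_exp.2
          have : (k : ℝ) * (X / 1000) ≤ 20 * (X / 1000) := by gcongr
          linarith
  have hu0X : 1 + (u0 : ℝ) ≤ α := by linarith
  have i6 : (1 : ℝ) / h ^ 2 = α ^ 6 := by
    have : (1 : ℝ) / h ^ 2 = (1 / h) ^ 2 := (one_div_pow h 2).symm
    rw [this, hhinv]
    ring
  have hE1 : (1 / h * Real.exp (-(Real.log lo / 2 - 1) / 2) * (1 + Real.log P) * w +
      (1 + u0) * (w * (Q * (48 * 1 * (Real.exp (u0 - Real.log lo / 2) / h ^ 2))))) *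
        (Q * ((1 + Real.log P) ^ 2 / h)) ≤ E := by
    have t1 : Real.exp (-(Real.log lo / 2 - 1) / 2) ≤ 2 * Real.exp (-(X / 8)) := by
      have h1 : (Real.exp (1 / 2) : ℝ) ≤ 2 := by
        have := Real.exp_one_lt_d9
        have e : Real.exp (1 / 2) * Real.exp (1 / 2) = Real.exp 1 := by rw [← Real.exp_add]; norm_num
        by_contra hcon
        rw [not_le] at hcon
        have : (2 : ℝ) * 2 < Real.exp (1 / 2) * Real.exp (1 / 2) := by gcongr
        linarith
      calc Real.exp (-(Real.log lo / 2 - 1) / 2) ≤ Real.exp (1 / 2 + -(X / 8)) := Real.exp_le_exp.2 (by linarith)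
        _ = Real.exp (1 / 2) * Real.exp (-(X / 8)) := by rw [Real.exp_add]
        _ ≤ _ := by gcongr
    have t2 : Real.exp (u0 - Real.log lo / 2) ≤ Real.exp (-(X / 8)) := Real.exp_le_exp.2 (by linarith)
    set y := Real.exp (-(X / 8)) with hy
    have hy0 : 0 < y := Real.exp_pos _
    have s1 : 1 / h * Real.exp (-(Real.log lo / 2 - 1) / 2) * (1 + Real.log P) * w ≤ 4 * α ^ 9 * y := by
      rw [hhinv, hwr]
      calc α ^ 3 * Real.exp (-(Real.log lo / 2 - 1) / 2) * (1 + Real.log P) * (2 * α ^ 5) ≤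
            α ^ 3 * (2 * y) * α * (2 * α ^ 5) := by gcongr
        _ = 4 * α ^ 9 * y := by ring
    have s2 : (1 + (u0 : ℝ)) * (w * (Q * (48 * 1 * (Real.exp (u0 - Real.log lo / 2) / h ^ 2)))) ≤ 96 * α ^ 13 * y := by
      have e : Real.exp ((u0 : ℝ) - Real.log lo / 2) / h ^ 2 = Real.exp (u0 - Real.log lo / 2) * α ^ 6 := by
        rw [← mul_one_div, i6]
      rw [e, hwr]
      calc (1 + (u0 : ℝ)) * (2 * α ^ 5 * (α * (48 * 1 * (Real.exp (u0 - Real.log lo / 2) * α ^ 6)))) ≤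
            α * (2 * α ^ 5 * (α * (48 * 1 * (y * α ^ 6)))) := by gcongr
        _ = 96 * α ^ 13 * y := by ring
    have s3 : (Q : ℝ) * ((1 + Real.log P) ^ 2 / h) ≤ α ^ 5 := by
      rw [← mul_one_div ((1 + Real.log P) ^ 2) h, hhinv]
      calc α * ((1 + Real.log P) ^ 2 * α ^ 3) ≤ α * (α * α ^ 3) := by gcongr
        _ = α ^ 5 := by ring
    have s4 : 4 * α ^ 9 * y ≤ 4 * α ^ 13 * y := by
      have : α ^ 9 ≤ α ^ 13 := pow_le_pow_right₀ hα1 (by norm_num)
      gcongr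
    calc _ ≤ (4 * α ^ 13 * y + 96 * α ^ 13 * y) * α ^ 5 := by
          apply mul_le_mul (add_le_add (s1.trans s4) s2) s3 (by positivity) (by positivity)
      _ = 100 * (α ^ 18 * y) := by ring
      _ ≤ α * (α ^ 18 * y) := by gcongr
      _ = α ^ 19 * y := by ring
      _ ≤ E := hEk 19 (by norm_num) _ le_rfl
  have hE2 : (1 + Real.log P) / h * (w * (Q * (48 * 1 * (Real.exp (-(Real.log lo / 2)) / h ^ 2)))) ≤ E := by
    have t2 : Real.exp (-(Real.log lo / 2)) ≤ Real.exp (-(X / 8)) := Real.exp_le_exp.2 (by linarith)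
    set y := Real.exp (-(X / 8)) with hy
    have hy0 : 0 < y := Real.exp_pos _
    have e : Real.exp (-(Real.log lo / 2)) / h ^ 2 = Real.exp (-(Real.log lo / 2)) * α ^ 6 := by
      rw [← mul_one_div, i6]
    rw [e, ← mul_one_div (1 + Real.log P) h, hhinv, hwr]
    calc (1 + Real.log P) * α ^ 3 * (2 * α ^ 5 * (α * (48 * 1 * (Real.exp (-(Real.log lo / 2)) * α ^ 6)))) ≤
          α * α ^ 3 * (2 * α ^ 5 * (α * (48 * 1 * (y * α ^ 6)))) := by gcongr
      _ = 96 * (α ^ 16 * y) := by ring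
      _ ≤ α * (α ^ 16 * y) := by gcongr; linarith
      _ = α ^ 17 * y := by ring
      _ ≤ E := hEk 17 (by norm_num) _ le_rfl
  have hE3 : 1 / h * Real.exp (-(Real.log lo - 2) / 2) * (1 + Real.log P) * w ≤ E := by
    have t2 : Real.exp (-(Real.log lo - 2) / 2) ≤ Real.exp (-(X / 8)) := Real.exp_le_exp.2 (by linarith)
    set y := Real.exp (-(X / 8)) with hy
    have hy0 : 0 < y := Real.exp_pos _
    rw [hhinv, hwr]
    calc α ^ 3 * Real.exp (-(Real.log lo - 2) / 2) * (1 + Real.log P) * (2 * α ^ 5) ≤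
          α ^ 3 * y * α * (2 * α ^ 5) := by gcongr
      _ = 2 * (α ^ 9 * y) := by ring
      _ ≤ α * (α ^ 9 * y) := by gcongr; linarith
      _ = α ^ 10 * y := by ring
      _ ≤ E := hEk 10 (by norm_num) _ le_rfl
  set Mb : ℝ := K * (X ^ 2 / X ^ D) with hMb
  have hMb0 : 0 < Mb := by positivity
  have hfin := all_la (F := Q) (h := h) (E := E) (Mb := Mb) hh0 hh2 w P u0 U lo (4 * N) hw1 huU hhlo hUlog hP1 hP3 hZ hLS
    hE1 hE2 hE3 hMb0 (by
      intro r hr ψ hψ u hu ξ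
      rw [Finset.mem_Icc] at hr hu
      have hu1 : (u0 : ℝ) ≤ u := by exact_mod_cast hu.1
      have hu2 : (u : ℝ) ≤ U := by exact_mod_cast hu.2
      exact hM u (by linarith) (by linarith) (by linarith) r (Finset.mem_Icc.2 ⟨by omega, hr.2⟩) ψ
        (by rw [← pr_eq]; exact hψ) ξ) hMM
  refine hfin.trans ?_
  have h5N : ((4 * N : ℕ) : ℝ) + 1 ≤ 5 * N := by push_cast; linarith
  have hE0 : 0 < E := Real.exp_pos _
  have r1 : α ^ 2 * (5 * N * (U * E)) ≤ N / X ^ A / 4 := by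
    rw [div_div, le_div_iff₀ (by positivity)]
    have hUα : (U : ℝ) ≤ α := by linarith
    have h1 : α ^ 5 * E ≤ 1 := by
      calc α ^ 5 * E ≤ Real.exp ((5 : ℕ) * (X / 1000)) * E := by
            have := hαX 5
            gcongr
        _ = Real.exp ((5 : ℕ) * (X / 1000) + -(X / 10)) := by rw [hE, ← Real.exp_add]
        _ ≤ Real.exp 0 := Real.exp_le_exp.2 (by push_cast; linarith)
        _ = 1 := Real.exp_zero
    calc α ^ 2 * (5 * N * (U * E)) * (X ^ A * 4) ≤ α ^ 2 * (5 * N * (α * E)) * (α * 4) := by gcongr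
      _ = N * (20 * (α ^ 4 * E)) := by ring
      _ ≤ N * (α * (α ^ 4 * E)) := by gcongr; linarith
      _ = N * (α ^ 5 * E) := by ring
      _ ≤ N * 1 := by gcongr
      _ = N := mul_one _
  have r2 : α ^ 2 * (320 * h * (5 * N)) ≤ N / X ^ A / 4 := by
    rw [div_div, le_div_iff₀ (by positivity)]
    have e : α ^ 2 * (320 * h * (5 * N)) * (X ^ A * 4) = N * (6400 * X ^ A) / α := by
      rw [hh]
      field_simp
      ring
    rw [e, div_le_iff₀ hα0]
    gcongr
  have r3 : α ^ 2 * lo ≤ N / X ^ A / 4 := by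
    rw [div_div, le_div_iff₀ (by positivity)]
    have h1 : α ^ 4 ≤ Real.exp (X / 2) := (hαX 4).trans (Real.exp_le_exp.2 (by push_cast; linarith))
    calc α ^ 2 * lo * (X ^ A * 4) ≤ α ^ 2 * (2 * Real.exp (X / 2)) * (α * 4) := by gcongr
      _ = 8 * α ^ 3 * Real.exp (X / 2) := by ring
      _ ≤ α * α ^ 3 * Real.exp (X / 2) := by gcongr; linarith
      _ = α ^ 4 * Real.exp (X / 2) := by ring
      _ ≤ Real.exp (X / 2) * Real.exp (X / 2) := by gcongr
      _ = N := by rw [hNX, ← Real.exp_add]; congr 1; ring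
  have r4 : 5 * N * ((U + 1) * (Mb * (96 * (1 + Real.log P) ^ 4))) ≤ N / X ^ A / 4 := by
    rw [div_div, le_div_iff₀ (by positivity)]
    have hU1X : (U : ℝ) + 1 ≤ 2 * X := by linarith
    have e1 : X ^ D = X ^ A * X ^ 9 := by rw [hDA, pow_add]
    calc 5 * (N : ℝ) * ((U + 1) * (Mb * (96 * (1 + Real.log P) ^ 4))) * (X ^ A * 4) ≤
          5 * N * ((2 * X) * (Mb * (96 * (2 * X) ^ 4))) * (X ^ A * 4) := by gcongr
      _ = N * (61440 * K / X ^ 2) := by
          rw [hMb, e1]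
          field_simp
          ring
      _ ≤ N * 1 := by
          gcongr
          rw [div_le_one (by positivity)]
          exact hKX
      _ = N := mul_one _
  calc _ ≤ α ^ 2 * (5 * N * (U * E) + 320 * h * (5 * N) + lo) +
        5 * N * ((U + 1) * (Mb * (96 * (1 + Real.log P) ^ 4))) := by gcongr
    _ = α ^ 2 * (5 * N * (U * E)) + α ^ 2 * (320 * h * (5 * N)) + α ^ 2 * lo +
        5 * N * ((U + 1) * (Mb * (96 * (1 + Real.log P) ^ 4))) := by ring
    _ ≤ N / X ^ A / 4 + N / X ^ A / 4 + N / X ^ A / 4 + N / X ^ A / 4 :=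
        add_le_add (add_le_add (add_le_add r1 r2) r3) r4
    _ = N / X ^ A := by ring

/-- **the Liouville function in primitive characters at a good scale** -/
theorem L1la {c0 : ℝ} (hc0 : 0 < c0) (hc01 : c0 ≤ 1) (A : ℕ) : ∃ c1 L0 : ℝ, 0 < c1 ∧ c1 ≤ 1 / 1000 ∧
    ∀ N Q : ℕ, L0 ≤ Real.log N → 1 ≤ Q → Zs c0 Q → Real.log (Real.log N) ^ 2 ≤ Real.log Q →
      Real.log Q * Real.log (Real.log N) ≤ c1 * Real.log N → ∀ M : ℕ, M ≤ 4 * N →
      ∑ r ∈ Finset.Icc 2 Q, ∑ ψ ∈ pr r, ‖∑ n ∈ Finset.Icc 1 M, la ψ n‖ ≤ N / Real.log N ^ A := by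
  obtain ⟨κ, K, hκ, hK, hMb⟩ := M_bd hc0 hc01 (A + 9)
  set D : ℕ := A + 9 with hD
  refine ⟨min (1 / 1000) (1 / (32 * κ)), max 1000 (max (Real.exp (D + 3)) (61440 * K + 1)),
    lt_min (by norm_num) (by positivity), min_le_left _ _, fun N Q hL hQ hZ hq1 hq2 M hM => ?_⟩
  set X : ℝ := Real.log (N : ℝ) with hX
  have hX1000 : 1000 ≤ X := (le_max_left _ _).trans hL
  have hXe : Real.exp (D + 3) ≤ X := (le_max_left _ _).trans ((le_max_right _ _).trans hL)
  have hXK : 61440 * K + 1 ≤ X := (le_max_right _ _).trans ((le_max_right _ _).trans hL)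
  have hXp : 0 < X := by linarith
  have hN : 1 ≤ N := by
    by_contra hcon
    have : N = 0 := by omega
    rw [hX, this] at hXp
    simp at hXp
  have hlX : (D : ℝ) + 3 ≤ Real.log X := by
    rw [Real.le_log_iff_exp_le hXp]
    exact hXe
  have hD0 : (0 : ℝ) ≤ D := Nat.cast_nonneg _
  set lX : ℝ := Real.log X with hlXd
  have hlX0 : 1 ≤ lX := by linarith
  have hDq : (D : ℝ) * lX + 3 ≤ Real.log Q := by
    refine le_trans ?_ hq1
    calc (D : ℝ) * lX + 3 ≤ D * lX + 3 * lX := by linarith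
      _ = (D + 3) * lX := by ring
      _ ≤ lX * lX := by gcongr
      _ = lX ^ 2 := by ring
  have hq0 : 0 ≤ Real.log Q := Real.log_natCast_nonneg _
  have hq3 : Real.log Q * lX ≤ 1 / 1000 * X := hq2.trans (by gcongr; exact min_le_left _ _)
  have hq4 : Real.log Q * lX ≤ 1 / (32 * κ) * X := hq2.trans (by gcongr; exact min_le_right _ _)
  have hqX : 1000 * Real.log Q ≤ X := by
    have : Real.log Q * 1 ≤ Real.log Q * lX := by gcongr
    linarith
  have hκq : κ * (Real.log Q * lX) ≤ X / 32 := by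
    calc κ * (Real.log Q * lX) ≤ κ * (1 / (32 * κ) * X) := by gcongr
      _ = X / 32 := by field_simp
  have hKX : 61440 * K ≤ X ^ 2 := by
    have : X * 1 ≤ X * X := by gcongr; linarith
    have e : X ^ 2 = X * X := by ring
    linarith
  exact L1_num (D := D) (κ := κ) (K := K) hD hN hX rfl hQ hqX hX1000 hDq hκ hκq hK hKX
    (hMb X (by linarith) Q hQ hZ hDq (by linarith)) hM

end Pool.Agent.P8H14.GL
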