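import Pool.Agent.P8H14.CF.Defs

set_option autoImplicit false

/-!
# Project GL: the Liouville function at the values `f(n) + A`, for every polynomial `f` of degree `d ≥ 2` and almost
all constants `A` (statements of the packages)

Goal (row MP_d639b3_nt, Chowla's conjecture for polynomials): for every `f ∈ ℤ[x]` of degree `d ≥ 2`, at most scales `N`
(upper log density `≥ 1 - ε`), for all but `N ^ (1 - c / log log N)` of the integers `|A| ≤ N`: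
`|∑_{n ≤ x} λ(f(n) + A)| ≤ N ^ (1/d) / log ^ B N` for all `x ≤ N ^ (1/d)`.
This generalizes the finished project CF (`Pool.Agent.P8H14.CF.Stm`, there `f = n ^ 2 + n` and primes); most packages
are adaptations of the files of the same name of that project.
The packages may assume each other: prove e.g. `theorem gtt : S_GMAJ → S_GVB → S_GTT`.
-/

namespace Pool.Agent.P8H14.GL

open Finset Filter Topology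
open Pool.Agent.P8H14.CF (e rr pr)

/-- the values of `f` -/
def Fv (f : Polynomial ℤ) (n : ℕ) : ℤ := f.eval (n : ℤ)

/-- the length of the block from `f(n)` to `f(n + 1)` -/
def Dl (f : Polynomial ℤ) (n : ℕ) : ℤ := Fv f (n + 1) - Fv f n

/-- the Gauss sum -/
noncomputable def G (f : Polynomial ℤ) (a q : ℕ) : ℂ := ∑ b ∈ range q, e ((a : ℝ) * (Fv f b : ℤ) / q)

/-- the exponential sum over the values `f n`, `x0 ≤ n < x` -/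
noncomputable def T (f : Polynomial ℤ) (x0 x : ℕ) (α : ℝ) : ℂ := ∑ n ∈ Ico x0 x, e (α * (Fv f n : ℤ))

/-- the smooth version of `T` near `0`: `e(β f(n))` is replaced by the mean value of `e(β k)`, `f(n) ≤ k < f(n+1)` -/
noncomputable def V (f : Polynomial ℤ) (x0 x : ℕ) (β : ℝ) : ℂ :=
  ∑ n ∈ Ico x0 x, ((1 / (Dl f n : ℝ) : ℝ) : ℂ) * ∑ k ∈ Ico (Fv f n) (Fv f (n + 1)), e (β * (k : ℤ))

/-- the major arc model of `T` -/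
noncomputable def TM (f : Polynomial ℤ) (Q x0 x : ℕ) (α : ℝ) : ℂ :=
  ∑ q ∈ Icc 1 Q, ∑ a ∈ rr q, G f a q / q * V f x0 x (α - a / q)

/-- the number of the solutions of `f(b) + A ≡ 0` modulo `j` -/
def rho (f : Polynomial ℤ) (A : ℤ) (j : ℕ) : ℕ := ((range j).filter (fun b => (j : ℤ) ∣ Fv f b + A)).card

/-- the Liouville function of `|m|`, with the value `0` at `0` -/
noncomputable def Li (m : ℤ) : ℝ := if m = 0 then 0 else (-1) ^ (ArithmeticFunction.cardFactors m.natAbs)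

/-- `∑_{q ≤ Q} ∑_a (G(a, q) / q) ∑_{u ≤ k < v} g(k + A) e(-a k / q)` -/
noncomputable def mj (f : Polynomial ℤ) (Q : ℕ) (g : ℤ → ℝ) (A u v : ℤ) : ℂ :=
  ∑ q ∈ Icc 1 Q, ∑ a ∈ rr q, G f a q / q * ∑ k ∈ Ico u v, (g (k + A) : ℂ) * e (-((a : ℝ) * (k : ℤ) / q))

/-- the main part of `∑_{x0 ≤ n < x} g(f(n) + A)` -/
noncomputable def ms (f : Polynomial ℤ) (Q x0 x : ℕ) (g : ℤ → ℝ) (A : ℤ) : ℂ :=
  ∑ n ∈ Ico x0 x, ((1 / (Dl f n : ℝ) : ℝ) : ℂ) * mj f Q g A (Fv f n) (Fv f (n + 1))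

/-- `f` grows and is convex from `n0` on -/
def Gr (f : Polynomial ℤ) (n0 : ℕ) (C : ℝ) : Prop := 1 ≤ n0 ∧ 1 ≤ C ∧ 2 ≤ f.natDegree ∧
  (∀ n : ℕ, n0 ≤ n → (n : ℝ) ^ (f.natDegree - 1) ≤ Dl f n ∧ Dl f n ≤ Dl f (n + 1) ∧ 0 ≤ Fv f n) ∧
  ∀ n : ℕ, 1 ≤ n → |(Fv f n : ℝ)| ≤ C * (n : ℝ) ^ f.natDegree ∧ |(Dl f n : ℝ)| ≤ C * (n : ℝ) ^ (f.natDegree - 1)

/-- (GRO, 150 lines) Growth. `f(n + 1) - f(n)` is the value of a polynomial of degree `d - 1` with the leading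
coefficient `d a_d ≥ 2`, and `f(n + 2) - 2 f(n + 1) + f(n)` is eventually positive. -/
def S_GRO : Prop := ∀ f : Polynomial ℤ, 2 ≤ f.natDegree → 0 < f.leadingCoeff → ∃ (n0 : ℕ) (C : ℝ), Gr f n0 C

/-- (GMAJ, 150 lines) The major arc approximation. Adapts `Pool.Agent.P8H78.CF.Maj` (here it is easier).
Proof. `e((a/q + β) f n) = e(a f(b) / q) e(β f n)` for `n ≡ b` modulo `q`. The sequence `g(n) = e(β f n)`, `x0 ≤ n < x`, has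
the total variation `≤ 2π |β| (f(x) - f(x0)) ≤ C'' |β| x^d`, so its sum over `n ≡ b` is `(1/q) ∑ g(n) + O(1 + variation)`;
and `|e(β f n) - e(β k)| ≤ 2π |β| Dl f n` for `f n ≤ k < f(n+1)`, so `∑_n g(n) = V + O(|β| x^d)`. -/
def S_GMAJ : Prop := ∀ (f : Polynomial ℤ) (n0 : ℕ) (C : ℝ), Gr f n0 C → ∃ C' : ℝ, 0 < C' ∧
  ∀ x0 x q a : ℕ, n0 ≤ x0 → x0 ≤ x → 1 ≤ q → ∀ β : ℝ,
    ‖T f x0 x (a / q + β) - G f a q / q * V f x0 x β‖ ≤ C' * q * (1 + |β| * (x : ℝ) ^ f.natDegree)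

/-- (GVB, 100 lines) With `S(K) = ∑_{f(x0) ≤ k < K} e(βk)`, `|S| ≤ 1 / (2δ)`: `V = ∑_n (S(f(n+1)) - S(f(n))) / Dl f n`, and
`Dl f n` is nondecreasing, so by Abel summation `|V| ≤ 1 / (2 δ Dl f x0)`. -/
def S_GVB : Prop := ∀ (f : Polynomial ℤ) (n0 : ℕ) (C : ℝ), Gr f n0 C → ∀ x0 x : ℕ, n0 ≤ x0 → x0 ≤ x → ∀ β δ : ℝ,
  0 < δ → (∀ n : ℤ, δ ≤ |β - n|) → ‖V f x0 x β‖ ≤ 1 / ((x0 : ℝ) ^ (f.natDegree - 1) * δ)

/-- (GTT, 350 lines; `S_GMAJ → S_GVB → S_GTT`) Adapts `Pool.Agent.P8H78.CF.TT`, with `IW_all d` of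
`Pool.Agent.H373R2.NB.Weyl` (the inverse theorem for Weyl sums; the phase `α f(n)` is `Ph d (α d! a_d)`).
Proof (`dist` = distance modulo 1). Trivially `|T| ≤ x`, `|V| ≤ x`, `|G / q| ≤ 1`.
Case A: there are `q ≤ Q`, `(a, q) = 1`, with `dist(α, a/q) ≤ Q / x^d`. `S_GMAJ` gives `T(α) = G/q V(α - a/q) + O(Q²)`. For
the other fractions `a'/q'`, `q' ≤ Q`, `dist(α, a'/q') ≥ 1/Q² - Q/x^d ≥ 1/(2Q²)`, so by `S_GVB` they contribute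
`≤ Q² · 2Q²/x0^(d-1)`.
Case B: there are none. For at most one fraction `dist(α, a/q) < 1/(2Q²)`; for this one `dist > Q/x^d`, so by `S_GVB`
`|TM(α)| ≤ x^d/(x0^(d-1) Q) + 2Q⁴/x0^(d-1)`. And if `|T(α)| > x/u`, then one of the sums over `n < y`, `y = x` or `x0`, is
`> x/(2u)`, so `y > x/(2u)`, and `IW_all d` (`N = y`, `u := 2u`) gives `q' ≤ c (2u)^m` and
`|α L q' - a'| ≤ c (2u)^m / y^d ≤ c (2u)^(m+d) / x^d`, `L = d! a_d`: with `a'/(L q')` in lowest terms this is Case A if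
`L c (2u)^(m+d) ≤ Q`. Choose `u` with equality: `u = Q^κ / C'`, `κ = 1/(m+d)`.
(If `Q` is bounded the claim is trivial, by the choice of `C'`.) -/
def S_GTT : Prop := ∀ (f : Polynomial ℤ) (n0 : ℕ) (C : ℝ), 0 < f.leadingCoeff → Gr f n0 C →
  ∃ κ C' : ℝ, 0 < κ ∧ 0 < C' ∧ ∀ x0 x Q : ℕ, 1 ≤ Q → n0 ≤ x0 → x0 ≤ x → Q ^ 6 ≤ x0 → ∀ α : ℝ,
    ‖T f x0 x α - TM f Q x0 x α‖ ≤ C' * ((x : ℝ) ^ f.natDegree / ((x0 : ℝ) ^ (f.natDegree - 1) * (Q : ℝ) ^ κ))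

/-- (GDU, 250 lines) Duality. Adapts `Pool.Agent.P8H7.CF.Du`. `E` is a set of integers `|A| ≤ N`. Proof:
`h(A) = ∑_k r₂(k) g(k + A)` on `ℤ/M` is a cyclic correlation of `r₂` (supported on `[0, f x)`) and
`g 1_[-N, N + f x]` (no wrap around for `|A| ≤ N`), so by Parseval modulo `M`
`∑_{A ∈ E} |h(A)|² ≤ (1/M) ∑_t |r₂^(t)|² |g^(t)|² ≤ B₀² ∑ g²`. Here
`r₂(k) = #{x0 ≤ n < x : f n = k} - [k in the block of n] (1 / Dl f n) ∑_{q,a} (G a q/q) e(-a k/q)`, and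
`∑_k r₂(k) e(kα) = T f x0 x α - TM f Q x0 x α`. -/
def S_GDU : Prop := ∀ (f : Polynomial ℤ) (n0 : ℕ) (C : ℝ), Gr f n0 C →
  ∀ (g : ℤ → ℝ) (Q N x0 x M : ℕ) (E : Finset ℤ) (U B₀ Φ : ℝ), E ⊆ Icc (-(N : ℤ)) N → 0 < U → n0 ≤ x0 → x0 ≤ x →
  2 * (N + Fv f x) + 1 ≤ M → (∀ t : ℕ, t < M → ‖T f x0 x ((t : ℝ) / M) - TM f Q x0 x ((t : ℝ) / M)‖ ≤ B₀) →
  ∑ m ∈ Icc (-(N : ℤ)) (N + Fv f x), g m ^ 2 ≤ Φ →
  (∀ A ∈ E, U ≤ ‖∑ n ∈ Ico x0 x, (g (Fv f n + A) : ℂ) - ms f Q x0 x g A‖) →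
    (E.card : ℝ) * U ^ 2 ≤ B₀ ^ 2 * Φ

/-- (GAB, 80 lines) Abel summation: `mj f Q g A (f n) (f (n+1)) = mj .. (f x0) (f (n+1)) - mj .. (f x0) (f n)`, and
`1 / Dl f n` is nonincreasing, `≤ 1 / x0^(d-1)`. -/
def S_GAB : Prop := ∀ (f : Polynomial ℤ) (n0 : ℕ) (C : ℝ), Gr f n0 C →
  ∀ (g : ℤ → ℝ) (Q x0 x : ℕ) (A : ℤ) (W : ℝ), n0 ≤ x0 → x0 ≤ x →
  (∀ K : ℤ, Fv f x0 ≤ K → K ≤ Fv f x → ‖mj f Q g A (Fv f x0) K‖ ≤ W) →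
    ‖ms f Q x0 x g A‖ ≤ 2 * W / (x0 : ℝ) ^ (f.natDegree - 1)

/-- (GLQ, 300 lines) One modulus `q = k l`; `v` is supported on the residues coprime to `k`. Adapts
`Pool.Agent.P8H89.CF.Cq` (there `l = 1`). `s` is `1` or `-1`.
Proof. For `(x, k) = 1`: `e(x/k) = (1/φ(k)) ∑_{χ mod k} τ(χ̄) χ(x)`. So the left side is
`(1/φ(k)) ∑_χ χ(s) τ(χ̄) H(χ) ∑_m v(m) χ(m)` with `H(χ) = (1/q) ∑_{b mod q} c_χ(f(b) + A)`,
`c_χ(n) = ∑_{a ∈ rr q} χ(a) e(an/q)`. If `χ` is induced by the primitive `ψ` mod `r`, `r ∣ k`, then `τ(χ̄) = 0` unless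
`k = r t` with `t` squarefree and coprime to `r`, and then `|τ(χ̄)| = √r`. And
`c_χ(n) = τ(ψ) ∑_{j ∣ (n, q/r)} j μ(q/(rj)) ψ(q/(rj)) ψ̄(n/j)`, so `|c_χ(n)| ≤ √r ∑_{j ∣ (n, q/r)} j` and
`|H(χ)| ≤ √r ∑_{j ∣ q/r} ρ(j)` (the number of `b` modulo `q` with `j ∣ f(b) + A` is `q ρ(j) / j`).
Helpful: `Pool.Agent.P8H14.QP.B1`, `B2` (Gauss sums of imprimitive characters, primitive characters). -/
def S_GLQ : Prop := ∀ (f : Polynomial ℤ) (A : ℤ) (k l : ℕ) (s : ℝ), 1 ≤ k → 1 ≤ l → (s = 1 ∨ s = -1) →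
  ∀ (S : Finset ℕ) (v : ℕ → ℂ), (∀ m ∈ S, m.Coprime k) →
  ‖∑ a ∈ rr (k * l), G f a (k * l) / ((k * l : ℕ) : ℂ) * e ((a : ℝ) * (A : ℤ) / ((k * l : ℕ) : ℝ)) *
      ∑ m ∈ S, v m * e (s * ((a : ℝ) * m / k))‖ ≤
    ∑ r ∈ k.divisors.filter (fun r => r.Coprime (k / r)),
      ((r : ℝ) / k.totient) * (∑ j ∈ (k * l / r).divisors, (rho f A j : ℝ)) * ∑ ψ ∈ pr r, ‖∑ m ∈ S, v m * ψ (m : ZMod r)‖

/-- (GRHO, 250 lines) Proof. `ρ` is multiplicative (Chinese remainder theorem). If `x_1, ..., x_(d+1)` are distinct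
solutions modulo `p^k`, then `a_d = ∑_i f(x_i) / ∏_{j ≠ i} (x_i - x_j)` (with `f + A` in the place of `f`; divided
differences, `Lagrange`) shows that `p^(k - v)`, `v = v_p(a_d)`, divides one of the products
`∏_{j ≠ i} (x_i - x_j)`, so two of them are congruent modulo `p^⌈(k-v)/d⌉`. So the solutions are in `d` classes modulo
`p^⌈(k-v)/d⌉`, `ρ(p^k) ≤ d p^(k - ⌈(k-v)/d⌉)`, uniformly in `A`. So `∑_k (k+1) ρ(p^k) / p^k ≤ 1 + C_f / p`, and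
`∏_{p ≤ Q} (1 + C_f / p) ≤ C (1 + log Q)^K`. -/
def S_GRHO : Prop := ∀ f : Polynomial ℤ, 2 ≤ f.natDegree → ∃ C : ℝ, 0 < C ∧ ∃ K : ℕ, ∀ (Q : ℕ) (A : ℤ), 1 ≤ Q →
  ∑ j ∈ Icc 1 Q, ((j.divisors.card : ℝ) * rho f A j) / j ≤ C * (1 + Real.log Q) ^ K

/-- (GLCS, 250 lines; `S_GLQ → S_GRHO → S_GLCS`) Adapts `Pool.Agent.P8H89.CF.Cs`. For a modulus `q` sort the `m` by
`l = (m, q)`, `q = k l`, `m = l m'`, `(m', k) = 1`: `λ(m) e(s a m / q) = λ(l) λ(m') e(s a m' / k)`; apply `S_GLQ`. In the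
sums with `ψ` mod `r`, `k = r t`, the condition `(m', k) = 1` is `(m', t) = 1` (as `ψ(m') = 0` otherwise), removed by
`∑_{c ∣ (m', t)} μ(c)`, `m' = c m''`. So the coefficient of `‖∑_{m'' ≤ Y/(l c)} λ ψ‖`, `c ∣ t`, is `(r / φ(r t)) ∑_{j ∣ t l} ρ(j)`
with `r t l ≤ Q`. Altogether `≤ max (r/φ(r)) · ∑_{t l ≤ Q} (1/(φ(t) l)) (∑_{c ∣ t} 1/c) (∑_{j ∣ t l} ρ(j)) δ
≤ (1 + log Q)^K' δ ∑_{n ≤ Q} (d(n)/n) ∑_{j ∣ n} ρ(j) ≤ (1 + log Q)^K'' δ ∑_{j ≤ Q} d(j) ρ(j)/j`. -/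
def S_GLCS : Prop := ∀ f : Polynomial ℤ, 2 ≤ f.natDegree → ∃ C : ℝ, 0 < C ∧ ∃ K : ℕ, ∀ (Q M : ℕ) (A : ℤ) (s δ : ℝ),
  1 ≤ Q → (s = 1 ∨ s = -1) → 0 ≤ δ →
  (∀ D ∈ Icc 1 (Q ^ 2), ∀ Y : ℕ, D * Y ≤ M →
    ∑ r ∈ Icc 1 Q, ∑ ψ ∈ pr r, ‖∑ m ∈ Icc 1 Y, (Li (m : ℤ) : ℂ) * ψ (m : ZMod r)‖ ≤ δ / D) →
  ∀ Y : ℕ, Y ≤ M → ‖∑ q ∈ Icc 1 Q, ∑ a ∈ rr q, G f a q / q * e ((a : ℝ) * (A : ℤ) / q) *
        ∑ m ∈ Icc 1 Y, (Li (m : ℤ) : ℂ) * e (s * ((a : ℝ) * m / q))‖ ≤ C * (1 + Real.log Q) ^ K * δ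

/-- (GW, 80 lines) Translation: `m = k + A`, `e(-a k / q) = e(a A / q) e(-a m / q)`; the `m > 0` and the `m < 0`
(`m = -m'`, `λ(|m|) = λ(m')`), each a difference of two initial sums. -/
def S_GW : Prop := ∀ (f : Polynomial ℤ) (Q M : ℕ) (A : ℤ) (W : ℝ),
  (∀ s : ℝ, (s = 1 ∨ s = -1) → ∀ Y : ℕ, Y ≤ M →
    ‖∑ q ∈ Icc 1 Q, ∑ a ∈ rr q, G f a q / q * e ((a : ℝ) * (A : ℤ) / q) *
        ∑ m ∈ Icc 1 Y, (Li (m : ℤ) : ℂ) * e (s * ((a : ℝ) * m / q))‖ ≤ W) →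
  ∀ u v : ℤ, u ≤ v → |u + A| ≤ M → |v + A| ≤ M → ‖mj f Q Li A u v‖ ≤ 4 * W

end Pool.Agent.P8H14.GL
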