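import Pool.Agent.P8H14.GL.L1d
import Pool.Agent.P8H14.CF.E6
import Pool.Agent.P8H14.GL.Stm
import Pool.Agent.H373R2.T7.SupLiou

set_option autoImplicit false

/-!
# Project GL: the sums of the Liouville function in characters at the scales `N / D`
-/

open Finset Filter Topology

namespace Pool.Agent.P8H14.GL

open Pool.Agent.P8H14.CF (pr pr_eq)
open Pool.Agent.P8H14.QP (la Zs)
open Pool.Agent.H373R2.T7 (liR liR_norm sup_liou)

lemma Li_la {r : ℕ} (ψ : DirichletCharacter ℂ r) {m : ℕ} (hm : 1 ≤ m) :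
    ((Li (m : ℤ) : ℝ) : ℂ) * ψ (m : ZMod r) = la ψ m := by
  unfold Li la liR
  have h1 : (m : ℤ) ≠ 0 := by
    have : 0 < m := hm
    exact_mod_cast this.ne'
  rw [if_neg h1, Int.natAbs_natCast]
  push_cast
  ring

lemma sum_Li_la {r : ℕ} (ψ : DirichletCharacter ℂ r) (Y : ℕ) :
    ∑ m ∈ Icc 1 Y, ((Li (m : ℤ) : ℝ) : ℂ) * ψ (m : ZMod r) = ∑ m ∈ Icc 1 Y, la ψ m :=
  sum_congr rfl fun _ hm => Li_la ψ (mem_Icc.1 hm).1

/-- the trivial character -/
lemma triv_bd (A : ℕ) : ∃ L0 : ℝ, ∀ (N : ℕ) (L : ℝ), L0 ≤ L → L ≤ Real.log N → ∀ Y : ℕ, Y ≤ N →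
    ‖∑ m ∈ Icc 1 Y, liR m‖ ≤ 2 ^ A * (N / L ^ A) := by
  obtain ⟨N0, hN0⟩ := sup_liou A
  have e1 : ∀ᶠ L : ℝ in atTop, 1 * L ^ A ≤ Real.exp (1 / 2 * L) := Pool.Agent.P8H14.CF.ev_pow_exp A (1 / 2) 1 (by norm_num) (by norm_num)
  obtain ⟨L1, hL1⟩ := eventually_atTop.1 e1
  refine ⟨max (max L1 1) (2 * Real.log (N0 + 1)), fun N L hL hLN Y hY => ?_⟩
  have hL1' : L1 ≤ L := (le_max_left _ _).trans ((le_max_left _ _).trans hL)
  have hL1'' : 1 ≤ L := (le_max_right _ _).trans ((le_max_left _ _).trans hL)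
  have hL3 : 2 * Real.log (N0 + 1) ≤ L := (le_max_right _ _).trans hL
  have hLp : 0 < L := by linarith
  have hN1 : 1 ≤ N := by
    by_contra hcon
    have : N = 0 := by omega
    rw [this] at hLN
    simp at hLN
    linarith
  have hN0' : (0 : ℝ) < N := by exact_mod_cast hN1
  have hNe : Real.exp L ≤ N := by rwa [← Real.le_log_iff_exp_le hN0']
  have htriv : ‖∑ m ∈ Icc 1 Y, liR m‖ ≤ Y := by
    refine (norm_sum_le _ _).trans ((sum_le_card_nsmul _ _ _ fun n _ => liR_norm n).trans ?_)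
    rw [nsmul_eq_mul, Nat.card_Icc, mul_one, Nat.add_sub_cancel]
  rcases le_or_gt (Y : ℝ) (Real.exp (1 / 2 * L)) with h | h
  · refine htriv.trans (h.trans ?_)
    have h1 := hL1 L hL1'
    rw [one_mul] at h1
    have h2 : Real.exp (1 / 2 * L) ≤ N / L ^ A := by
      rw [le_div_iff₀ (by positivity)]
      calc Real.exp (1 / 2 * L) * L ^ A ≤ Real.exp (1 / 2 * L) * Real.exp (1 / 2 * L) := by gcongr
        _ = Real.exp L := by rw [← Real.exp_add]; congr 1; ring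
        _ ≤ N := hNe
    have h3 : (1 : ℝ) ≤ 2 ^ A := one_le_pow₀ (by norm_num)
    have h4 : 0 ≤ (N : ℝ) / L ^ A := by positivity
    calc _ ≤ 1 * (N / L ^ A) := by rw [one_mul]; exact h2
      _ ≤ _ := by gcongr
  · have hY0 : N0 ≤ Y := by
      have h1 : (N0 : ℝ) + 1 ≤ Y := by
        refine le_trans ?_ h.le
        rw [← Real.log_le_iff_le_exp (by positivity)]
        linarith
      have : (N0 : ℝ) ≤ Y := by linarith
      exact_mod_cast this
    have h1 := hN0 Y hY0 0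
    have h2 : ∑ n ∈ Icc 1 Y, liR n * Pool.Agent.H807R2.Dav.ee ((n : ℝ) * 0) = ∑ m ∈ Icc 1 Y, liR m := by
      apply sum_congr rfl
      intro n _
      rw [mul_zero]
      unfold Pool.Agent.H807R2.Dav.ee
      simp
    rw [h2] at h1
    refine h1.trans ?_
    have hYp : (0 : ℝ) < Y := lt_trans (Real.exp_pos _) h
    have h3 : L / 2 ≤ Real.log Y := by
      rw [Real.le_log_iff_exp_le hYp]
      have : L / 2 = 1 / 2 * L := by ring
      rw [this]
      exact h.le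
    have hYN : (Y : ℝ) ≤ N := by exact_mod_cast hY
    calc (Y : ℝ) / Real.log Y ^ A ≤ N / (L / 2) ^ A := by gcongr
      _ = 2 ^ A * (N / L ^ A) := by
          rw [div_pow]
          field_simp

/-- **all characters at the scales `N / D`** -/
theorem sub_scale {c0 : ℝ} (hc0 : 0 < c0) (hc01 : c0 ≤ 1) (A C1 : ℕ) (hC1 : 1 ≤ C1) : ∃ c1 L0 K2 : ℝ, 0 < c1 ∧ 0 < K2 ∧
    ∀ N Q : ℕ, L0 ≤ Real.log N → 1 ≤ Q → Zs c0 Q → 4 * Real.log (Real.log N) ^ 2 ≤ Real.log Q →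
      2 * (Real.log Q * Real.log (Real.log N)) ≤ c1 * Real.log N →
      ∀ D ∈ Icc 1 (Q ^ 2), ∀ Y : ℕ, D * Y ≤ C1 * N →
      ∑ r ∈ Icc 1 Q, ∑ ψ ∈ pr r, ‖∑ m ∈ Icc 1 Y, ((Li (m : ℤ) : ℝ) : ℂ) * ψ (m : ZMod r)‖ ≤
        (K2 * (N / Real.log N ^ A)) / D := by
  obtain ⟨c1, L1, hc1, hc11, hmain⟩ := L1la hc0 hc01 A
  obtain ⟨L2, htriv⟩ := triv_bd A
  set K2 : ℝ := 2 * C1 * (2 ^ A + 4 ^ A) with hK2
  have hC1r : (1 : ℝ) ≤ C1 := by exact_mod_cast hC1
  refine ⟨c1 / 2, max (max (2 * L1) (2 * L2)) (max 100 (C1 + 1)), K2, by positivity, by positivity,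
    fun N Q hL hQ hZ hq1 hq2 D hD Y hY => ?_⟩
  set X : ℝ := Real.log (N : ℝ) with hX
  have hXL1 : 2 * L1 ≤ X := (le_max_left _ _).trans ((le_max_left _ _).trans hL)
  have hXL2 : 2 * L2 ≤ X := (le_max_right _ _).trans ((le_max_left _ _).trans hL)
  have hX100 : 100 ≤ X := (le_max_left _ _).trans ((le_max_right _ _).trans hL)
  have hXC1 : (C1 : ℝ) + 1 ≤ X := (le_max_right _ _).trans ((le_max_right _ _).trans hL)
  have hXp : 0 < X := by linarith
  have hN : 1 ≤ N := by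
    by_contra hcon
    have : N = 0 := by omega
    rw [hX, this] at hXp
    simp at hXp
  have hN0 : (0 : ℝ) < N := by exact_mod_cast hN
  have hNX : (N : ℝ) = Real.exp X := by rw [hX, Real.exp_log hN0]
  rw [mem_Icc] at hD
  have hD1 : (1 : ℝ) ≤ D := by exact_mod_cast hD.1
  have hD0 : (0 : ℝ) < D := by linarith
  have hQ0 : (0 : ℝ) < Q := by exact_mod_cast hQ
  set q : ℝ := Real.log (Q : ℝ) with hq
  set lX : ℝ := Real.log X with hlX
  have hlX1 : 4 ≤ lX := by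
    rw [hlX, Real.le_log_iff_exp_le hXp]
    have e : Real.exp 4 = Real.exp 1 ^ 4 := by rw [← Real.exp_nat_mul]; norm_num
    have h3 : Real.exp 1 ≤ 2.7183 := by
      have := Real.exp_one_lt_d9
      linarith
    rw [e]
    calc Real.exp 1 ^ 4 ≤ 2.7183 ^ 4 := by gcongr
      _ ≤ 100 := by norm_num
      _ ≤ X := hX100
  have hq0 : 0 ≤ q := Real.log_natCast_nonneg _
  have hqX : q ≤ X / 1000 := by
    have h1 : c1 / 2 * X ≤ 1 / 1000 / 2 * X := by gcongr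
    have h2 : q * 4 ≤ q * lX := by gcongr
    linarith
  -- the scale
  set N' : ℕ := C1 * N / D + 1 with hN'
  have hYN' : Y ≤ N' := by
    have : Y ≤ C1 * N / D := by
      rw [Nat.le_div_iff_mul_le (by omega), mul_comm]
      exact hY
    omega
  have hN'1 : (C1 : ℝ) * N / D ≤ N' := by
    have h1 := (Nat.lt_floor_add_one ((C1 * N : ℕ) / (D : ℕ) : ℝ)).le
    rw [Nat.floor_div_eq_div] at h1
    rw [hN']
    push_cast at h1 ⊢
    exact h1
  have hDe : (D : ℝ) ≤ Real.exp (X / 2) := by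
    have h1 : (D : ℝ) ≤ (Q : ℝ) ^ 2 := by exact_mod_cast hD.2
    refine h1.trans ?_
    have h2 : (Q : ℝ) = Real.exp q := by rw [hq, Real.exp_log hQ0]
    rw [h2, ← Real.exp_nat_mul]
    apply Real.exp_le_exp.2
    push_cast
    linarith
  have hND1 : 1 ≤ (C1 : ℝ) * N / D := by
    rw [one_le_div hD0]
    calc (D : ℝ) ≤ Real.exp (X / 2) := hDe
      _ ≤ Real.exp X := Real.exp_le_exp.2 (by linarith)
      _ = 1 * N := by rw [one_mul, hNX]
      _ ≤ C1 * N := by gcongr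
  have hN'2 : (N' : ℝ) ≤ 2 * (C1 * N / D) := by
    have h1 : (((C1 * N / D : ℕ)) : ℝ) ≤ ((C1 * N : ℕ) : ℝ) / (D : ℕ) := Nat.cast_div_le
    rw [hN']
    push_cast at h1 ⊢
    linarith
  have hN'0 : (0 : ℝ) < N' := by linarith
  set X' : ℝ := Real.log (N' : ℝ) with hX'
  have hX'1 : X / 2 ≤ X' := by
    rw [hX', Real.le_log_iff_exp_le hN'0]
    refine le_trans ?_ hN'1
    rw [le_div_iff₀ hD0]
    calc Real.exp (X / 2) * D ≤ Real.exp (X / 2) * Real.exp (X / 2) := by gcongr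
      _ = Real.exp X := by rw [← Real.exp_add]; congr 1; ring
      _ = 1 * N := by rw [one_mul, hNX]
      _ ≤ C1 * N := by gcongr
  have hX'0 : 0 < X' := by linarith
  have hX'2 : X' ≤ 2 * X := by
    rw [hX', Real.log_le_iff_le_exp hN'0]
    have h1 : (C1 : ℝ) * N / D ≤ C1 * N := div_le_self (by positivity) hD1
    have h2 : (C1 : ℝ) + 1 ≤ Real.exp C1 := Real.add_one_le_exp _
    have h3 : (2 : ℝ) ≤ Real.exp 1 := by
      have := Real.exp_one_gt_d9
      linarith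
    calc (N' : ℝ) ≤ 2 * (C1 * N) := by linarith
      _ ≤ Real.exp 1 * (Real.exp C1 * Real.exp X) := by
          rw [hNX]
          gcongr
          linarith
      _ = Real.exp (1 + (C1 + X)) := by rw [Real.exp_add, Real.exp_add]
      _ ≤ Real.exp (2 * X) := Real.exp_le_exp.2 (by linarith)
  have hlX'0 : 0 ≤ Real.log X' := Real.log_nonneg (by linarith)
  have hlX' : Real.log X' ≤ 2 * lX := by
    have h1 : Real.log X' ≤ Real.log (2 * X) := Real.log_le_log hX'0 hX'2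
    rw [Real.log_mul (by norm_num) hXp.ne'] at h1
    have := Real.log_two_lt_d9
    rw [← hlX] at h1
    linarith
  have hXA : N' / X' ^ A ≤ 2 ^ A * (N' / X ^ A) := by
    calc N' / X' ^ A ≤ N' / (X / 2) ^ A := by gcongr
      _ = _ := by rw [div_pow]; field_simp
  have h2 : ∑ r ∈ Icc 2 Q, ∑ ψ ∈ pr r, ‖∑ m ∈ Icc 1 Y, ((Li (m : ℤ) : ℝ) : ℂ) * ψ (m : ZMod r)‖ ≤
      2 ^ A * (N' / X ^ A) := by
    refine le_trans ?_ hXA
    simp only [sum_Li_la]
    apply hmain N' Q (by linarith) hQ hZ _ _ Y (by omega)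
    · calc Real.log X' ^ 2 ≤ (2 * lX) ^ 2 := by gcongr
        _ = 4 * lX ^ 2 := by ring
        _ ≤ q := hq1
    · calc q * Real.log X' ≤ q * (2 * lX) := by gcongr
        _ = 2 * (q * lX) := by ring
        _ ≤ c1 / 2 * X := hq2
        _ = c1 * (X / 2) := by ring
        _ ≤ c1 * X' := by gcongr
  have h1 : ∑ ψ ∈ pr 1, ‖∑ m ∈ Icc 1 Y, ((Li (m : ℤ) : ℝ) : ℂ) * ψ (m : ZMod 1)‖ ≤ 4 ^ A * (N' / X ^ A) := by
    have h3 : ∀ ψ ∈ pr 1, ‖∑ m ∈ Icc 1 Y, ((Li (m : ℤ) : ℝ) : ℂ) * ψ (m : ZMod 1)‖ ≤ 4 ^ A * (N' / X ^ A) := by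
      intro ψ _
      rw [sum_Li_la]
      have h4 : ∑ m ∈ Icc 1 Y, la ψ m = ∑ m ∈ Icc 1 Y, liR m := by
        apply sum_congr rfl
        intro m _
        unfold la
        have h5 : ((m : ℕ) : ZMod 1) = 1 := Subsingleton.elim _ _
        rw [h5, map_one, one_mul]
      rw [h4]
      have h5 := htriv N' (X / 2) (by linarith) hX'1 Y hYN'
      refine h5.trans (le_of_eq ?_)
      rw [div_pow]
      have e : (4 : ℝ) ^ A = 2 ^ A * 2 ^ A := by rw [← mul_pow]; norm_num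
      rw [e]
      field_simp
    have h4 : (pr 1).card ≤ 1 := by
      rw [pr_eq]
      have := Pool.Agent.P8H14.QP.card_pr 1
      rw [Nat.totient_one] at this
      exact_mod_cast this
    have h5 : 0 ≤ 4 ^ A * ((N' : ℝ) / X ^ A) := by positivity
    calc _ ≤ (pr 1).card • (4 ^ A * ((N' : ℝ) / X ^ A)) := sum_le_card_nsmul _ _ _ h3
      _ ≤ 1 • (4 ^ A * ((N' : ℝ) / X ^ A)) := by
          rw [nsmul_eq_mul, nsmul_eq_mul]
          gcongr
      _ = _ := one_nsmul _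
  have hsplit : Icc 1 Q = insert 1 (Icc 2 Q) := by
    ext r
    simp only [mem_Icc, mem_insert]
    omega
  rw [hsplit, sum_insert (by simp)]
  calc _ ≤ 4 ^ A * (N' / X ^ A) + 2 ^ A * (N' / X ^ A) := add_le_add h1 h2
    _ = (2 ^ A + 4 ^ A) * (N' / X ^ A) := by ring
    _ ≤ (2 ^ A + 4 ^ A) * (2 * (C1 * N / D) / X ^ A) := by gcongr
    _ = _ := by
        rw [hK2]
        field_simp

end Pool.Agent.P8H14.GL
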