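import Pool.Agent.P8H14.GL.M1
import Pool.Agent.P8H14.QP.B15

set_option autoImplicit false

/-!
# Project GL: one polynomial with positive leading coefficient at one scale
-/

open Finset Filter Topology

namespace Pool.Agent.P8H14.GL

open Pool.Agent.P8H14.CF (pr rr e ev_pow_exp)
open Pool.Agent.P8H14.QP (la Zs GS sav)

lemma Li_abs (m : ℤ) : |Li m| ≤ 1 := by
  unfold Li
  split_ifs
  · simp
  · rw [abs_pow]; simp

lemma Li_sum_le (f : Polynomial ℤ) (A : ℤ) (S : Finset ℕ) : |∑ n ∈ S, Li (Fv f n + A)| ≤ S.card := by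
  refine (abs_sum_le_sum_abs _ _).trans ((sum_le_card_nsmul _ _ _ fun n _ => Li_abs _).trans ?_)
  rw [nsmul_eq_mul, mul_one]

open Classical in
/-- the exceptional set for one `x` -/
noncomputable def Exc (f : Polynomial ℤ) (Q N x0 x : ℕ) (R : ℝ) : Finset ℤ :=
  (Icc (-(N : ℤ)) N).filter (fun A => R ≤ ‖∑ n ∈ Ico x0 x, ((Li (Fv f n + A) : ℝ) : ℂ) - ms f Q x0 x Li A‖)

lemma Exc_card (hGDU : S_GDU) {f : Polynomial ℤ} {n0 : ℕ} {C : ℝ} (hGr : Gr f n0 C) {κ C' : ℝ} (hC' : 0 < C')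
    (hTT : ∀ x0 x Q : ℕ, 1 ≤ Q → n0 ≤ x0 → x0 ≤ x → Q ^ 6 ≤ x0 → ∀ α : ℝ,
      ‖T f x0 x α - TM f Q x0 x α‖ ≤ C' * ((x : ℝ) ^ f.natDegree / ((x0 : ℝ) ^ (f.natDegree - 1) * (Q : ℝ) ^ κ)))
    {Q N x0 x C1 : ℕ} {R : ℝ} (hC1 : C + 1 ≤ C1) (hN : 1 ≤ N) (hQ : 1 ≤ Q) (hx0 : n0 ≤ x0) (hx : x0 ≤ x)
    (hQ6 : Q ^ 6 ≤ x0) (hxN : x ^ f.natDegree ≤ N) (hR : 0 < R) (hRx : R ≤ x0) :
    ((Exc f Q N x0 x R).card : ℝ) * R ^ 2 ≤
      (C' * (N / (R ^ (f.natDegree - 1) * (Q : ℝ) ^ κ))) ^ 2 * (3 * C1 * N) := by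
  have hn0 := hGr.1
  have hx1 : 1 ≤ x := hn0.trans (hx0.trans hx)
  have hQ0 : (0 : ℝ) < Q := by exact_mod_cast hQ
  have hQκ : 0 < (Q : ℝ) ^ κ := Real.rpow_pos_of_pos hQ0 _
  have hFx : (0 : ℤ) ≤ Fv f x := (hGr.2.2.2.1 x (hx0.trans hx)).2.2
  have hxN' : (x : ℝ) ^ f.natDegree ≤ N := by exact_mod_cast hxN
  have hC1' : 1 ≤ C := hGr.2.1
  have hFxN : (Fv f x : ℝ) ≤ C * N := by
    have := (hGr.2.2.2.2 x hx1).1
    calc (Fv f x : ℝ) ≤ |(Fv f x : ℝ)| := le_abs_self _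
      _ ≤ C * (x : ℝ) ^ f.natDegree := this
      _ ≤ C * N := by gcongr
  have hN1 : (1 : ℝ) ≤ N := by exact_mod_cast hN
  have hx00 : (0 : ℝ) < x0 := lt_of_lt_of_le hR hRx
  obtain ⟨M, hM⟩ : ∃ M : ℕ, (M : ℤ) = 2 * (N + Fv f x) + 1 := ⟨(2 * (N + Fv f x) + 1).toNat, by omega⟩
  apply hGDU f n0 C hGr Li Q N x0 x M (Exc f Q N x0 x R) R (C' * (N / (R ^ (f.natDegree - 1) * (Q : ℝ) ^ κ)))
    (3 * C1 * N) (filter_subset _ _) hR hx0 hx (le_of_eq hM.symm)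
  · intro t _
    refine (hTT x0 x Q hQ hx0 hx hQ6 _).trans ?_
    gcongr
  · have h1 : ∀ m ∈ Icc (-(N : ℤ)) (N + Fv f x), Li m ^ 2 ≤ 1 := by
      intro m _
      have := Li_abs m
      rw [← sq_abs]
      exact pow_le_one₀ (abs_nonneg _) this
    refine (sum_le_card_nsmul _ _ _ h1).trans ?_
    rw [nsmul_eq_mul, mul_one, Int.card_Icc]
    have h2 : (((N + Fv f x + 1 - -(N : ℤ)).toNat : ℕ) : ℝ) = 2 * N + Fv f x + 1 := by
      have h3 : (((N + Fv f x + 1 - -(N : ℤ)).toNat : ℕ) : ℤ) = N + Fv f x + 1 - -(N : ℤ) := Int.toNat_of_nonneg (by omega)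
      have h4 : ((((N + Fv f x + 1 - -(N : ℤ)).toNat : ℕ) : ℤ) : ℝ) = ((N + Fv f x + 1 - -(N : ℤ) : ℤ) : ℝ) := by rw [h3]
      push_cast at h4
      rw [h4]
      ring
    rw [h2]
    have h5 : (C + 1) * N ≤ C1 * (N : ℝ) := by gcongr
    have h6 : (C + 1) * (N : ℝ) = C * N + N := by ring
    have h7 : (0 : ℝ) ≤ C * N := by positivity
    have h8 : 3 * (C1 : ℝ) * N = 3 * (C1 * N) := by ring
    linarith
  · intro A hA
    exact (mem_filter.1 hA).2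

/-- **one polynomial** -/
theorem one_f (hGRO : S_GRO) (hGTT : S_GTT) (hGDU : S_GDU) (hGAB : S_GAB) (hGLCS : S_GLCS) (hGW : S_GW) {c0 : ℝ}
    (hc0 : 0 < c0) (hc01 : c0 ≤ 1) (f : Polynomial ℤ) (hd : 2 ≤ f.natDegree) (hl : 0 < f.leadingCoeff) (B : ℕ) :
    ∃ c1 : ℝ, 0 < c1 ∧ ∀ c' : ℝ, 0 < c' → ∃ c : ℝ, 0 < c ∧ ∃ N1 : ℕ, ∀ N : ℕ, N1 ≤ N → GS c0 c1 c' N →
      ∃ E : Finset ℤ, (E.card : ℝ) ≤ N / sav c N ∧ ∀ A ∈ Icc (-(N : ℤ)) N, A ∉ E → ∀ x : ℕ, x ^ f.natDegree ≤ N →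
        |∑ n ∈ Icc 1 x, Li (Fv f n + A)| ≤ (N : ℝ) ^ (1 / (f.natDegree : ℝ)) / Real.log N ^ B := by
  classical
  obtain ⟨n0, C, hGr⟩ := hGRO f hd hl
  obtain ⟨κ, C', hκ, hC', hTT⟩ := hGTT f n0 C hl hGr
  obtain ⟨Cg, hCg, Kg, hCS⟩ := hGLCS f hd
  have hC1' : 1 ≤ C := hGr.2.1
  have hn0 := hGr.1
  set d : ℕ := f.natDegree with hdd
  obtain ⟨C1, hC1⟩ := exists_nat_ge (C + 1)
  have hC1n : 1 ≤ C1 := by
    have : (1 : ℝ) ≤ C1 := by linarith
    exact_mod_cast this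
  set b : ℕ := B + 1 with hb
  obtain ⟨c1, L0, K2, hc1, hK2, hsub⟩ := sub_scale hc0 hc01 (d * b + Kg + 1) C1 hC1n
  refine ⟨c1, hc1, fun c' hc' => ⟨κ * c', by positivity, ?_⟩⟩
  have hd0 : (0 : ℝ) < d := by
    have : 0 < d := by omega
    exact_mod_cast this
  -- conditions on `X`
  have x1 : ∀ᶠ X : ℝ in atTop, ((n0 : ℝ) + 1) * X ^ b ≤ Real.exp (1 / (2 * d) * X) :=
    ev_pow_exp b (1 / (2 * d)) _ (by positivity) (by positivity)
  have x2 : ∀ᶠ X : ℝ in atTop, max (6 * c1 * d) (max 4 ((3 * C1 * C' ^ 2 + ((2 * d + 1) * b : ℕ)) / (4 * κ) + 1)) ≤ Real.log X :=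
    Real.tendsto_log_atTop.eventually_ge_atTop _
  have x3 : ∀ᶠ X : ℝ in atTop, max L0 (max 100 (8 * Cg * K2)) ≤ X := eventually_ge_atTop _
  obtain ⟨N1, hN1⟩ := eventually_atTop.1 ((Real.tendsto_log_atTop.comp tendsto_natCast_atTop_atTop).eventually
    (x1.and (x2.and x3)))
  refine ⟨max N1 10, fun N hN hG => ?_⟩
  obtain ⟨a1, a2, a3⟩ := hN1 N ((le_max_left _ _).trans hN)
  have hN10 : 10 ≤ N := (le_max_right _ _).trans hN
  simp only [Function.comp] at a1 a2 a3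
  obtain ⟨Q, hQ, hZ, hq1, hq2, hq3⟩ := hG
  set X : ℝ := Real.log (N : ℝ) with hX
  set lX : ℝ := Real.log X with hlX
  set q : ℝ := Real.log (Q : ℝ) with hq
  have b1 : 6 * c1 * d ≤ lX := (le_max_left _ _).trans a2
  have b2 : 4 ≤ lX := (le_max_left _ _).trans ((le_max_right _ _).trans a2)
  have b3 : (3 * C1 * C' ^ 2 + ((2 * d + 1) * b : ℕ)) / (4 * κ) + 1 ≤ lX :=
    (le_max_right _ _).trans ((le_max_right _ _).trans a2)
  have b4 : L0 ≤ X := (le_max_left _ _).trans a3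
  have b5 : 100 ≤ X := (le_max_left _ _).trans ((le_max_right _ _).trans a3)
  have b6 : 8 * Cg * K2 ≤ X := (le_max_right _ _).trans ((le_max_right _ _).trans a3)
  have hXp : 0 < X := by linarith
  have hlX0 : 0 < lX := by linarith
  have hNn : 1 ≤ N := by omega
  have hN0 : (0 : ℝ) < N := by exact_mod_cast hNn
  have hNX : (N : ℝ) = Real.exp X := by rw [hX, Real.exp_log hN0]
  have hQ0 : (0 : ℝ) < Q := by exact_mod_cast hQ
  have hQe : (Q : ℝ) = Real.exp q := by rw [hq, Real.exp_log hQ0]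
  have hq0 : 0 ≤ q := Real.log_natCast_nonneg _
  -- `ρ = N ^ (1/d)`
  set ρ : ℝ := (N : ℝ) ^ (1 / (d : ℝ)) with hρ
  have hρe : ρ = Real.exp (X / d) := by
    rw [hρ, Real.rpow_def_of_pos hN0, ← hX]
    congr 1
    ring
  have hρ0 : 0 < ρ := by rw [hρe]; exact Real.exp_pos _
  have hρd : ρ ^ d = N := by
    rw [hρe, ← Real.exp_nat_mul, hNX]
    congr 1
    field_simp
  have hXb : 0 < X ^ b := by positivity
  set R : ℝ := ρ / X ^ b with hR
  have hR0 : 0 < R := by positivity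
  have hRn0 : (n0 : ℝ) + 1 ≤ R := by
    rw [hR, le_div_iff₀ hXb, hρe]
    refine a1.trans (Real.exp_le_exp.2 ?_)
    rw [div_eq_mul_one_div X, mul_comm X]
    gcongr
    linarith
  have hRe : Real.exp (X / (2 * d)) ≤ R := by
    rw [hR, le_div_iff₀ hXb, hρe]
    have h1 : X ^ b ≤ Real.exp (X / (2 * d)) := by
      have h2 : X / (2 * d) = 1 / (2 * d) * X := by ring
      rw [h2]
      refine le_trans ?_ a1
      have : (1 : ℝ) ≤ (n0 : ℝ) + 1 := by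
        have : (0 : ℝ) ≤ n0 := Nat.cast_nonneg _
        linarith
      calc X ^ b = 1 * X ^ b := (one_mul _).symm
        _ ≤ _ := by gcongr
    calc Real.exp (X / (2 * d)) * X ^ b ≤ Real.exp (X / (2 * d)) * Real.exp (X / (2 * d)) := by gcongr
      _ = Real.exp (X / d) := by
          rw [← Real.exp_add]
          congr 1
          field_simp
          norm_num
  have hR1 : 1 ≤ R := by
    have : (0 : ℝ) ≤ n0 := Nat.cast_nonneg _
    linarith
  have hRd : R ^ d = N / X ^ (d * b) := by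
    rw [hR, div_pow, hρd, ← pow_mul]
    congr 2
    ring
  have hdd1 : R ^ d = R ^ (d - 1) * R := by
    rw [← pow_succ]
    congr 1
    omega
  set x0 : ℕ := ⌈R⌉₊ with hx0
  have hx01 : R ≤ x0 := Nat.le_ceil _
  have hx02 : (x0 : ℝ) ≤ 2 * R := by
    have := (Nat.ceil_lt_add_one hR0.le).le
    linarith
  have hx0p : (0 : ℝ) < x0 := by linarith
  have hx0n : 1 ≤ x0 := by exact_mod_cast (Nat.cast_pos.1 hx0p)
  have hn0x : n0 ≤ x0 := by
    have : (n0 : ℝ) ≤ x0 := by linarith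
    exact_mod_cast this
  have hqX : 6 * q ≤ X / (2 * d) := by
    rw [le_div_iff₀ (by positivity)]
    have h1 : q * (6 * c1 * d) ≤ q * lX := by gcongr
    have h2 : c1 * (6 * q * (2 * d)) ≤ c1 * X := by
      calc c1 * (6 * q * (2 * d)) = 2 * (q * (6 * c1 * d)) := by ring
        _ ≤ 2 * (q * lX) := by gcongr
        _ ≤ c1 * X := hq2
    exact le_of_mul_le_mul_left h2 hc1
  have hQ6 : Q ^ 6 ≤ x0 := by
    have h1 : ((Q ^ 6 : ℕ) : ℝ) ≤ x0 := by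
      push_cast
      rw [hQe, ← Real.exp_nat_mul]
      refine le_trans (Real.exp_le_exp.2 ?_) (hRe.trans hx01)
      push_cast
      exact hqX
    exact_mod_cast h1
  have h1q : 1 + q ≤ X := by
    have h1 : X / (2 * d) ≤ X / 4 := by
      have : (2 : ℝ) ≤ d := by exact_mod_cast hd
      gcongr
      linarith
    linarith
  -- the grid
  set s0 : ℕ := ⌊ρ⌋₊ with hs0
  have hs0r : (s0 : ℝ) ≤ ρ := Nat.floor_le hρ0.le
  have hs0d : s0 ^ d ≤ N := by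
    have h1 : ((s0 ^ d : ℕ) : ℝ) ≤ N := by
      push_cast
      rw [← hρd]
      gcongr
    exact_mod_cast h1
  have hle_s0 : ∀ Y : ℕ, Y ^ d ≤ N → Y ≤ s0 := by
    intro Y hY
    apply Nat.le_floor
    have h1 : ((Y : ℝ)) ^ d ≤ ρ ^ d := by
      rw [hρd]
      exact_mod_cast hY
    exact le_of_pow_le_pow_left₀ (by omega) hρ0.le h1
  set J : ℕ := s0 / x0 with hJ
  have hJr : (J : ℝ) ≤ X ^ b := by
    have h1 : (J : ℝ) ≤ s0 / x0 := by rw [hJ]; exact Nat.cast_div_le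
    refine h1.trans ?_
    rw [div_le_iff₀ hx0p]
    calc (s0 : ℝ) ≤ ρ := hs0r
      _ = X ^ b * R := by rw [hR]; field_simp
      _ ≤ X ^ b * x0 := by gcongr
  have hgrid : ∀ j ∈ Icc 1 J, x0 ≤ j * x0 ∧ (j * x0) ^ d ≤ N := by
    intro j hj
    rw [mem_Icc] at hj
    refine ⟨Nat.le_mul_of_pos_left _ (by omega), ?_⟩
    have h1 : j * x0 ≤ s0 := (Nat.mul_le_mul_right _ hj.2).trans (Nat.div_mul_le_self s0 x0)
    exact (Nat.pow_le_pow_left h1 d).trans hs0d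
  set E : Finset ℤ := (Icc 1 J).biUnion (fun j => Exc f Q N x0 (j * x0) R) with hE
  have hQκ : 0 < (Q : ℝ) ^ κ := Real.rpow_pos_of_pos hQ0 _
  have hEj : ∀ j ∈ Icc 1 J, ((Exc f Q N x0 (j * x0) R).card : ℝ) ≤
      3 * C1 * C' ^ 2 * N * X ^ (2 * (d * b)) / ((Q : ℝ) ^ κ) ^ 2 := by
    intro j hj
    obtain ⟨g1, g2⟩ := hgrid j hj
    have h1 := Exc_card hGDU hGr hC' hTT (R := R) hC1 hNn hQ hn0x g1 hQ6 g2 hR0 hx01
    rw [← hdd] at h1
    rw [← le_div_iff₀ (by positivity)] at h1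
    refine h1.trans (le_of_eq ?_)
    have e1 : (R ^ (d - 1) * R) ^ 2 = (N / X ^ (d * b)) ^ 2 := by rw [← hdd1, hRd]
    have e2 : X ^ (2 * (d * b)) = X ^ (d * b) * X ^ (d * b) := by rw [← pow_add]; congr 1; ring
    have hXdb : 0 < X ^ (d * b) := by positivity
    have hRd1 : 0 < R ^ (d - 1) := by positivity
    calc (C' * (N / (R ^ (d - 1) * (Q : ℝ) ^ κ))) ^ 2 * (3 * C1 * N) / R ^ 2 =
          3 * C1 * C' ^ 2 * N ^ 3 / ((R ^ (d - 1) * R) ^ 2 * ((Q : ℝ) ^ κ) ^ 2) := by field_simp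
      _ = 3 * C1 * C' ^ 2 * N ^ 3 / ((N / X ^ (d * b)) ^ 2 * ((Q : ℝ) ^ κ) ^ 2) := by rw [e1]
      _ = _ := by
          rw [e2]
          field_simp
  have hEc : (E.card : ℝ) ≤ N / sav (κ * c') N := by
    have h1 : (E.card : ℝ) ≤ ∑ j ∈ Icc 1 J, ((Exc f Q N x0 (j * x0) R).card : ℝ) := by
      exact_mod_cast card_biUnion_le
    have h2 := h1.trans (sum_le_card_nsmul _ _ _ hEj)
    rw [nsmul_eq_mul, Nat.card_Icc, Nat.add_sub_cancel] at h2
    have hQκe : (Q : ℝ) ^ κ = Real.exp (κ * q) := by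
      rw [hQe, ← Real.exp_mul]
      congr 1
      ring
    have h3 : 3 * C1 * C' ^ 2 * X ^ ((2 * d + 1) * b) ≤ (Q : ℝ) ^ κ := by
      have h4 : X ^ ((2 * d + 1) * b) = Real.exp (((2 * d + 1) * b : ℕ) * lX) := by
        rw [← Real.rpow_natCast, Real.rpow_def_of_pos hXp, ← hlX]
        congr 1
        ring
      have h5 : 3 * C1 * C' ^ 2 ≤ Real.exp (3 * C1 * C' ^ 2) := by
        have := Real.add_one_le_exp (3 * C1 * C' ^ 2)
        linarith
      rw [h4, hQκe]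
      calc 3 * C1 * C' ^ 2 * Real.exp (((2 * d + 1) * b : ℕ) * lX) ≤
            Real.exp (3 * C1 * C' ^ 2) * Real.exp (((2 * d + 1) * b : ℕ) * lX) := by gcongr
        _ = Real.exp (3 * C1 * C' ^ 2 + ((2 * d + 1) * b : ℕ) * lX) := by rw [Real.exp_add]
        _ ≤ Real.exp (κ * q) := by
            apply Real.exp_le_exp.2
            have h6 : 3 * C1 * C' ^ 2 + ((2 * d + 1) * b : ℕ) ≤ 4 * κ * lX := by
              have h7 : (3 * C1 * C' ^ 2 + ((2 * d + 1) * b : ℕ)) / (4 * κ) ≤ lX := by linarith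
              rw [div_le_iff₀ (by positivity)] at h7
              linarith
            have h8 : 0 ≤ 3 * (C1 : ℝ) * C' ^ 2 := by positivity
            calc 3 * C1 * C' ^ 2 + ((2 * d + 1) * b : ℕ) * lX ≤
                  3 * C1 * C' ^ 2 * lX + ((2 * d + 1) * b : ℕ) * lX := by
                    have : 3 * (C1 : ℝ) * C' ^ 2 * 1 ≤ 3 * C1 * C' ^ 2 * lX := by gcongr; linarith
                    linarith
              _ = (3 * C1 * C' ^ 2 + ((2 * d + 1) * b : ℕ)) * lX := by ring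
              _ ≤ (4 * κ * lX) * lX := by gcongr
              _ = κ * (4 * lX ^ 2) := by ring
              _ ≤ κ * q := by gcongr
    have h4 : sav (κ * c') N ≤ (Q : ℝ) ^ κ := by
      unfold sav
      rw [hQκe]
      apply Real.exp_le_exp.2
      have h5 : c' * X / lX ≤ q := hq3
      calc κ * c' * X / lX = κ * (c' * X / lX) := by ring
        _ ≤ κ * q := by gcongr
    have hs0' : 0 < sav (κ * c') N := Real.exp_pos _
    calc (E.card : ℝ) ≤ J * (3 * C1 * C' ^ 2 * N * X ^ (2 * (d * b)) / ((Q : ℝ) ^ κ) ^ 2) := h2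
      _ ≤ X ^ b * (3 * C1 * C' ^ 2 * N * X ^ (2 * (d * b)) / ((Q : ℝ) ^ κ) ^ 2) := by gcongr
      _ = N * (3 * C1 * C' ^ 2 * X ^ ((2 * d + 1) * b)) / ((Q : ℝ) ^ κ) ^ 2 := by
          have : X ^ ((2 * d + 1) * b) = X ^ b * X ^ (2 * (d * b)) := by rw [← pow_add]; congr 1; ring
          rw [this]
          ring
      _ ≤ N * (Q : ℝ) ^ κ / ((Q : ℝ) ^ κ) ^ 2 := by gcongr
      _ = N / (Q : ℝ) ^ κ := by field_simp
      _ ≤ N / sav (κ * c') N := by gcongr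
  refine ⟨E, hEc, fun A hA hAE x hx => ?_⟩
  rw [mem_Icc] at hA
  have hAabs : |(A : ℝ)| ≤ N := by
    rw [abs_le]
    constructor
    · exact_mod_cast hA.1
    · exact_mod_cast hA.2
  -- the major arcs
  set δ : ℝ := K2 * (N / X ^ (d * b + Kg + 1)) with hδ
  have hδ0 : 0 ≤ δ := by positivity
  set W : ℝ := Cg * (1 + q) ^ Kg * δ with hW
  have hWle : 8 * W ≤ R ^ d := by
    rw [hRd, le_div_iff₀ (by positivity)]
    have e1 : X ^ (d * b + Kg + 1) = X ^ (d * b) * X ^ Kg * X := by rw [← pow_add, ← pow_succ]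
    have h1 : (1 + q) ^ Kg ≤ X ^ Kg := by gcongr
    calc 8 * W * X ^ (d * b) ≤ 8 * (Cg * X ^ Kg * δ) * X ^ (d * b) := by rw [hW]; gcongr
      _ = N * (8 * Cg * K2 / X) := by
          rw [hδ, e1]
          field_simp
      _ ≤ N * 1 := by
          gcongr
          rw [div_le_one hXp]
          exact b6
      _ = N := mul_one _
  have hW0 : 0 ≤ W := by positivity
  have hmaj : ∀ s : ℝ, (s = 1 ∨ s = -1) → ∀ Y : ℕ, Y ≤ C1 * N →
      ‖∑ q ∈ Icc 1 Q, ∑ a ∈ rr q, G f a q / q * e ((a : ℝ) * (A : ℤ) / q) *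
        ∑ m ∈ Icc 1 Y, (Li (m : ℤ) : ℂ) * e (s * ((a : ℝ) * m / q))‖ ≤ W := by
    intro s hs Y hY
    exact hCS Q (C1 * N) A s δ hQ hs hδ0 (fun D hD Y hY => hsub N Q b4 hQ hZ hq1 hq2 D hD Y hY) Y hY
  have hmj := hGW f Q (C1 * N) A W hmaj
  have hC1N : ∀ y : ℕ, 1 ≤ y → y ^ d ≤ N → |(Fv f y : ℝ)| + N ≤ C1 * N := by
    intro y hy1 hy
    have h1 := (hGr.2.2.2.2 y hy1).1
    have h2 : (y : ℝ) ^ d ≤ N := by exact_mod_cast hy
    have h3 : C * (y : ℝ) ^ d ≤ C * N := by gcongr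
    have h4 : (C + 1) * (N : ℝ) ≤ C1 * N := by gcongr
    have h5 : (C + 1) * (N : ℝ) = C * N + N := by ring
    rw [← hdd] at h1
    linarith
  have hms : ∀ j ∈ Icc 1 J, ‖ms f Q x0 (j * x0) Li A‖ ≤ R := by
    intro j hj
    obtain ⟨g1, g2⟩ := hgrid j hj
    have h1 := hGAB f n0 C hGr Li Q x0 (j * x0) A (4 * W) hn0x g1 (by
      intro K hK1 hK2
      have hx0N : x0 ^ d ≤ N := (Nat.pow_le_pow_left g1 d).trans g2
      have k1 := hC1N x0 hx0n hx0N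
      have k2 := hC1N (j * x0) (hx0n.trans g1) g2
      have k0 : (0 : ℤ) ≤ Fv f x0 := (hGr.2.2.2.1 x0 hn0x).2.2
      apply hmj (Fv f x0) K hK1
      · have h2 : |((Fv f x0 + A : ℤ) : ℝ)| ≤ ((C1 * N : ℕ) : ℝ) := by
          push_cast
          refine (abs_add_le _ _).trans ?_
          linarith
        rw [← Int.cast_abs] at h2
        exact_mod_cast h2
      · have h2 : |((K + A : ℤ) : ℝ)| ≤ ((C1 * N : ℕ) : ℝ) := by
          push_cast
          refine (abs_add_le _ _).trans ?_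
          have h3 : |(K : ℝ)| ≤ |(Fv f (j * x0) : ℝ)| := by
            have h4 : (0 : ℝ) ≤ K := by exact_mod_cast k0.trans hK1
            rw [abs_of_nonneg h4]
            have h5 : (K : ℝ) ≤ Fv f (j * x0) := by exact_mod_cast hK2
            exact h5.trans (le_abs_self _)
          linarith
        rw [← Int.cast_abs] at h2
        exact_mod_cast h2)
    rw [← hdd] at h1
    refine h1.trans ?_
    rw [div_le_iff₀ (by positivity)]
    calc 2 * (4 * W) = 8 * W := by ring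
      _ ≤ R ^ d := hWle
      _ = R * R ^ (d - 1) := by rw [hdd1]; ring
      _ ≤ R * (x0 : ℝ) ^ (d - 1) := by gcongr
  have hX6 : ρ / X ^ B = X * R := by
    rw [hR, hb, pow_succ]
    field_simp
  rw [hX6]
  have h6R : 6 * R ≤ X * R := by gcongr; linarith
  refine le_trans ?_ h6R
  rcases Nat.lt_or_ge x x0 with hxx | hxx
  · have h1 := Li_sum_le f A (Icc 1 x)
    rw [Nat.card_Icc, Nat.add_sub_cancel] at h1
    have h2 : (x : ℝ) ≤ x0 := by exact_mod_cast hxx.le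
    linarith
  · have hxs := hle_s0 x hx
    set j := x / x0 with hj
    have hj1 : 1 ≤ j := (Nat.one_le_div_iff (by omega)).2 hxx
    have hjJ : j ≤ J := Nat.div_le_div_right hxs
    have hjm : j ∈ Icc 1 J := mem_Icc.2 ⟨hj1, hjJ⟩
    obtain ⟨g1, g2⟩ := hgrid j hjm
    have hjx : j * x0 ≤ x := Nat.div_mul_le_self x x0
    have hjx2 : x + 1 - j * x0 ≤ x0 := by
      have h1 := Nat.div_add_mod x x0
      have h2 := Nat.mod_lt x (show 0 < x0 by omega)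
      rw [← hj] at h1
      have h3 : x0 * j = j * x0 := Nat.mul_comm _ _
      omega
    have hAj : A ∉ Exc f Q N x0 (j * x0) R := fun h => hAE (mem_biUnion.2 ⟨j, hjm, h⟩)
    have m1 : ‖∑ n ∈ Ico x0 (j * x0), ((Li (Fv f n + A) : ℝ) : ℂ) - ms f Q x0 (j * x0) Li A‖ < R := by
      by_contra hcon
      exact hAj (mem_filter.2 ⟨mem_Icc.2 hA, not_lt.1 hcon⟩)
    have m2 : |∑ n ∈ Ico x0 (j * x0), Li (Fv f n + A)| ≤ 2 * R := by
      have h1 : ‖∑ n ∈ Ico x0 (j * x0), ((Li (Fv f n + A) : ℝ) : ℂ)‖ ≤ R + R := by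
        have h2 := norm_add_le (∑ n ∈ Ico x0 (j * x0), ((Li (Fv f n + A) : ℝ) : ℂ) - ms f Q x0 (j * x0) Li A)
          (ms f Q x0 (j * x0) Li A)
        rw [sub_add_cancel] at h2
        exact h2.trans (add_le_add m1.le (hms j hjm))
      rw [← Complex.ofReal_sum, Complex.norm_real, Real.norm_eq_abs] at h1
      linarith
    have hsplit : ∑ n ∈ Icc 1 x, Li (Fv f n + A) = ∑ n ∈ Ico 1 x0, Li (Fv f n + A) +
        ∑ n ∈ Ico x0 (j * x0), Li (Fv f n + A) + ∑ n ∈ Ico (j * x0) (x + 1), Li (Fv f n + A) := by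
      rw [sum_Ico_consecutive _ hx0n g1, sum_Ico_consecutive _ (hx0n.trans g1) (by omega)]
      apply sum_congr _ fun _ _ => rfl
      ext n
      simp only [mem_Icc, mem_Ico]
      omega
    have m3 := Li_sum_le f A (Ico 1 x0)
    have m4 := Li_sum_le f A (Ico (j * x0) (x + 1))
    rw [Nat.card_Ico] at m3 m4
    have m5 : ((x0 - 1 : ℕ) : ℝ) ≤ x0 - 1 := by
      rw [Nat.cast_sub hx0n]
      push_cast
      exact le_rfl
    have m6 : ((x + 1 - j * x0 : ℕ) : ℝ) ≤ x0 := by exact_mod_cast hjx2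
    rw [hsplit]
    have n1 := abs_le.1 m2
    have n2 := abs_le.1 m3
    have n3 := abs_le.1 m4
    rw [abs_le]
    constructor <;> linarith

end Pool.Agent.P8H14.GL
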