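import Pool.Agent.P8H14.GL.M2
import Pool.Agent.P8H14.QP.D2

set_option autoImplicit false

/-!
# Project GL: finite families of polynomials, progressions
-/

open Finset Filter Topology

namespace Pool.Agent.P8H14.GL

open Pool.Agent.P8H14.QP (Zs GS sav most_GS sav_large sav_mono)
open Pool.Agent.TH823.PS (Most most_mono)

/-- the conclusion for one polynomial and one constant -/
def Ok (f : Polynomial ℤ) (B N : ℕ) (A : ℤ) : Prop := ∀ x : ℕ, x ^ f.natDegree ≤ N →
  |∑ n ∈ Icc 1 x, Li (Fv f n + A)| ≤ (N : ℝ) ^ (1 / (f.natDegree : ℝ)) / Real.log N ^ B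

/-- the conclusion at one scale for a family -/
def Fam (c0 : ℝ) (B : ℕ) (P : Polynomial ℤ → Prop) : Prop := ∃ c1 : ℝ, 0 < c1 ∧ ∀ c' : ℝ, 0 < c' → ∃ c : ℝ, 0 < c ∧
  ∃ N1 : ℕ, ∀ N : ℕ, N1 ≤ N → GS c0 c1 c' N → ∃ E : Finset ℤ, (E.card : ℝ) ≤ N / sav c N ∧
    ∀ A ∈ Icc (-(N : ℤ)) N, A ∉ E → ∀ f, P f → Ok f B N A

lemma Li_neg (m : ℤ) : Li (-m) = Li m := by
  unfold Li
  simp only [neg_eq_zero, Int.natAbs_neg]

/-- polynomials with a leading coefficient of any sign -/
lemma fam_one {c0 : ℝ} {B : ℕ} (h : ∀ f : Polynomial ℤ, 2 ≤ f.natDegree → 0 < f.leadingCoeff → Fam c0 B (fun g => g = f))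
    (f : Polynomial ℤ) (hd : 2 ≤ f.natDegree) : Fam c0 B (fun g => g = f) := by
  classical
  rcases lt_trichotomy f.leadingCoeff 0 with h0 | h0 | h0
  · obtain ⟨c1, hc1, h1⟩ := h (-f) (by rw [Polynomial.natDegree_neg]; exact hd)
      (by rw [Polynomial.leadingCoeff_neg]; linarith)
    refine ⟨c1, hc1, fun c' hc' => ?_⟩
    obtain ⟨c, hc, N1, h2⟩ := h1 c' hc'
    refine ⟨c, hc, N1, fun N hN hG => ?_⟩
    obtain ⟨E, hE, h3⟩ := h2 N hN hG
    refine ⟨E.image (fun A => -A), ?_, fun A hA hAE g hg x hx => ?_⟩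
    · refine le_trans ?_ hE
      exact_mod_cast card_image_le
    · subst hg
      rw [mem_Icc] at hA
      have hAE' : -A ∉ E := fun hcon => hAE (mem_image.2 ⟨-A, hcon, neg_neg A⟩)
      have h4 := h3 (-A) (mem_Icc.2 ⟨by omega, by omega⟩) hAE' (-g) rfl x (by rw [Polynomial.natDegree_neg]; exact hx)
      rw [Polynomial.natDegree_neg] at h4
      refine le_trans (le_of_eq ?_) h4
      congr 1
      apply sum_congr rfl
      intro n _
      rw [← Li_neg]
      congr 1
      unfold Fv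
      rw [Polynomial.eval_neg]
      ring
  · rw [Polynomial.leadingCoeff_eq_zero] at h0
    rw [h0] at hd
    simp at hd
  · exact h f hd h0

lemma GS_mono {c0 c1 c1' c' : ℝ} (h : c1 ≤ c1') {N : ℕ} (hN : 0 ≤ Real.log N) (hG : GS c0 c1 c' N) : GS c0 c1' c' N := by
  obtain ⟨Q, h1, h2, h3, h4, h5⟩ := hG
  exact ⟨Q, h1, h2, h3, h4.trans (mul_le_mul_of_nonneg_right h hN), h5⟩

lemma fam_union {c0 : ℝ} {B : ℕ} {P P' : Polynomial ℤ → Prop} (h : Fam c0 B P) (h' : Fam c0 B P') :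
    Fam c0 B (fun g => P g ∨ P' g) := by
  classical
  obtain ⟨c1, hc1, h1⟩ := h
  obtain ⟨c1', hc1', h1'⟩ := h'
  refine ⟨min c1 c1', lt_min hc1 hc1', fun c' hc' => ?_⟩
  obtain ⟨c, hc, N1, h2⟩ := h1 c' hc'
  obtain ⟨d, hd, N2, h2'⟩ := h1' c' hc'
  obtain ⟨N3, hN3, hbig⟩ := sav_large (show 0 < min c d / 2 by positivity) 2
  refine ⟨min c d / 2, by positivity, max (max N1 N2) (max N3 1), fun N hN hG => ?_⟩
  have e1 : N1 ≤ N := (le_max_left _ _).trans ((le_max_left _ _).trans hN)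
  have e2 : N2 ≤ N := (le_max_right _ _).trans ((le_max_left _ _).trans hN)
  have e3 : N3 ≤ N := (le_max_left _ _).trans ((le_max_right _ _).trans hN)
  have hlog : 0 ≤ Real.log N := Real.log_natCast_nonneg _
  obtain ⟨E, hE, h3⟩ := h2 N e1 (GS_mono (min_le_left _ _) hlog hG)
  obtain ⟨E', hE', h3'⟩ := h2' N e2 (GS_mono (min_le_right _ _) hlog hG)
  refine ⟨E ∪ E', ?_, fun A hA hAE f hf => ?_⟩
  · have hs := hbig N e3
    set s := sav (min c d / 2) N with hs'
    have h4 : sav (min c d) N = s * s := by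
      rw [hs', Pool.Agent.P8H14.QP.Len.sav_mul]
      congr 1
      ring
    have hs0 : 0 < s := by linarith
    have h5 : (E.card : ℝ) ≤ N / (s * s) := by
      refine hE.trans ?_
      rw [← h4]
      have := sav_mono (min_le_left c d) (N := N) (by omega)
      have : 0 < sav (min c d) N := Real.exp_pos _
      gcongr
    have h6 : (E'.card : ℝ) ≤ N / (s * s) := by
      refine hE'.trans ?_
      rw [← h4]
      have := sav_mono (min_le_right c d) (N := N) (by omega)
      have : 0 < sav (min c d) N := Real.exp_pos _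
      gcongr
    have h7 : ((E ∪ E').card : ℝ) ≤ E.card + E'.card := by exact_mod_cast card_union_le _ _
    calc ((E ∪ E').card : ℝ) ≤ N / (s * s) + N / (s * s) := by linarith
      _ = N * 2 / (s * s) := by ring
      _ ≤ N * s / (s * s) := by gcongr
      _ = N / s := by field_simp
  · rw [mem_union, not_or] at hAE
    rcases hf with hf | hf
    · exact h3 A hA hAE.1 f hf
    · exact h3' A hA hAE.2 f hf

lemma fam_finset {c0 : ℝ} {B : ℕ} (h : ∀ f : Polynomial ℤ, 2 ≤ f.natDegree → 0 < f.leadingCoeff → Fam c0 B (fun g => g = f))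
    (S : Finset (Polynomial ℤ)) (hS : ∀ f ∈ S, 2 ≤ f.natDegree) (hne : S.Nonempty) : Fam c0 B (fun g => g ∈ S) := by
  classical
  induction hne using Finset.Nonempty.cons_induction with
  | singleton f =>
    have h1 := fam_one h f (hS f (mem_singleton_self f))
    simpa only [mem_singleton] using h1
  | cons f S hf hne ih =>
    have h1 := fam_one h f (hS f (mem_cons_self f S))
    have h2 := ih (fun g hg => hS g (mem_cons_of_mem hg))
    have h3 := fam_union h1 h2
    simpa only [mem_cons] using h3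

/-- the sum over the integers `v`, `|v| ≤ x`, `v ≡ a` modulo `m` -/
noncomputable def PS (f : Polynomial ℤ) (A : ℤ) (m : ℕ) (a : ℤ) (x : ℕ) : ℝ :=
  ∑ v ∈ (Icc (-(x : ℤ)) x).filter (fun v => (m : ℤ) ∣ v - a), Li (f.eval v + A)

lemma prog_pos (F : ℤ → ℝ) {m : ℕ} (hm : 1 ≤ m) (a x : ℤ) :
    ∑ v ∈ (Ioc a x).filter (fun v => (m : ℤ) ∣ v - a), F v = ∑ t ∈ Icc 1 ((x - a) / m).toNat, F (a + m * (t : ℕ)) := by
  have hm0 : (0 : ℤ) < m := by exact_mod_cast hm
  symm
  apply sum_nbij' (fun t : ℕ => a + m * (t : ℤ)) (fun v : ℤ => ((v - a) / m).toNat)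
  · intro t ht
    rw [mem_Icc] at ht
    rw [mem_filter, mem_Ioc]
    have h1 : (t : ℤ) ≤ (x - a) / m := by omega
    have h2 : (t : ℤ) * m ≤ x - a := (Int.le_ediv_iff_mul_le hm0).1 h1
    have h3 : (1 : ℤ) * m ≤ (t : ℤ) * m := by
      apply mul_le_mul_of_nonneg_right _ hm0.le
      exact_mod_cast ht.1
    have h4 : (m : ℤ) * t = t * m := mul_comm _ _
    refine ⟨⟨by omega, by omega⟩, ⟨(t : ℤ), by ring⟩⟩
  · intro v hv
    rw [mem_filter, mem_Ioc] at hv
    obtain ⟨⟨hv1, hv2⟩, k, hk⟩ := hv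
    rw [mem_Icc]
    have h1 : (v - a) / m = k := by rw [hk, Int.mul_ediv_cancel_left _ hm0.ne']
    rw [h1]
    have h2 : 1 ≤ k := by
      by_contra hcon
      have : k ≤ 0 := by omega
      have h3 : (m : ℤ) * k ≤ 0 := mul_nonpos_of_nonneg_of_nonpos hm0.le this
      omega
    have h3 : k ≤ (x - a) / m := by
      rw [Int.le_ediv_iff_mul_le hm0, mul_comm]
      omega
    exact ⟨by omega, Int.toNat_le_toNat h3⟩
  · intro t ht
    simp only [add_sub_cancel_left]
    rw [Int.mul_ediv_cancel_left _ hm0.ne']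
    exact Int.toNat_natCast t
  · intro v hv
    rw [mem_filter, mem_Ioc] at hv
    obtain ⟨⟨hv1, hv2⟩, k, hk⟩ := hv
    have h1 : (v - a) / m = k := by rw [hk, Int.mul_ediv_cancel_left _ hm0.ne']
    rw [h1]
    have h2 : 0 ≤ k := by
      by_contra hcon
      have : k ≤ 0 := by omega
      have h3 : (m : ℤ) * k ≤ 0 := mul_nonpos_of_nonneg_of_nonpos hm0.le this
      omega
    rw [Int.toNat_of_nonneg h2]
    omega
  · intro t _
    rfl

/-- the two polynomials of a progression -/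
noncomputable def pp (f : Polynomial ℤ) (m a : ℤ) : Polynomial ℤ := f.comp (Polynomial.C a + Polynomial.C m * Polynomial.X)

lemma pp_eval (f : Polynomial ℤ) (m a : ℤ) (t : ℕ) : Fv (pp f m a) t = f.eval (a + m * t) := by
  unfold Fv pp
  simp [Polynomial.eval_comp]

lemma pp_deg (f : Polynomial ℤ) {m : ℤ} (hm : m ≠ 0) (a : ℤ) : (pp f m a).natDegree = f.natDegree := by
  unfold pp
  rw [Polynomial.natDegree_comp]
  have h1 : (Polynomial.C a + Polynomial.C m * Polynomial.X).natDegree = 1 := by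
    rw [add_comm]
    exact Polynomial.natDegree_linear hm
  rw [h1, mul_one]

/-- the progression sums from the sums with positive arguments -/
lemma PS_le (f : Polynomial ℤ) {B N : ℕ} {A : ℤ} {m : ℕ} (hm : 1 ≤ m) {a : ℤ} (ha0 : 0 ≤ a) (ham : a < m)
    (h1 : Ok (pp f m a) B N A) (h2 : Ok (pp f (-m) a) B N A) {x : ℕ} (hx : x ^ f.natDegree ≤ N) (hd : 1 ≤ f.natDegree) :
    |PS f A m a x| ≤ 1 + 2 * ((N : ℝ) ^ (1 / (f.natDegree : ℝ)) / Real.log N ^ B) := by
  classical
  have hm0 : (0 : ℤ) < m := by exact_mod_cast hm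
  have hmne : (m : ℤ) ≠ 0 := hm0.ne'
  set F : ℤ → ℝ := fun v => Li (f.eval v + A) with hF
  -- the three parts
  have hsplit : (Icc (-(x : ℤ)) x).filter (fun v : ℤ => (m : ℤ) ∣ v - a) =
      ((Ico (-(x : ℤ)) a).filter (fun v : ℤ => (m : ℤ) ∣ v - a)).filter (fun v : ℤ => v ≤ (x : ℤ)) ∪
      (((Icc (-(x : ℤ)) x).filter (fun v : ℤ => v = a)) ∪ (Ioc a x).filter (fun v : ℤ => (m : ℤ) ∣ v - a)) := by
    ext v
    simp only [mem_filter, mem_union, mem_Icc, mem_Ico, mem_Ioc]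
    constructor
    · rintro ⟨⟨k1, k2⟩, k3⟩
      rcases lt_trichotomy v a with h | h | h
      · exact Or.inl ⟨⟨⟨k1, h⟩, k3⟩, k2⟩
      · exact Or.inr (Or.inl ⟨⟨k1, k2⟩, h⟩)
      · exact Or.inr (Or.inr ⟨⟨h, k2⟩, k3⟩)
    · rintro (⟨⟨⟨k1, k2⟩, k3⟩, k4⟩ | ⟨⟨k1, k2⟩, k3⟩ | ⟨⟨k1, k2⟩, k3⟩)
      · exact ⟨⟨k1, k4⟩, k3⟩
      · exact ⟨⟨k1, k2⟩, by rw [k3, sub_self]; exact dvd_zero _⟩
      · exact ⟨⟨by omega, k2⟩, k3⟩
  -- negative side: no `v` in `[.., a)` in the class exceeds `x`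
  have hneg : ((Ico (-(x : ℤ)) a).filter (fun v : ℤ => (m : ℤ) ∣ v - a)).filter (fun v : ℤ => v ≤ (x : ℤ)) =
      (Ico (-(x : ℤ)) a).filter (fun v : ℤ => (m : ℤ) ∣ v - a) := by
    apply filter_true_of_mem
    intro v hv
    rw [mem_filter, mem_Ico] at hv
    obtain ⟨⟨k1, k2⟩, k, hk⟩ := hv
    have h3 : k ≤ -1 := by
      by_contra hcon
      have : 0 ≤ k := by omega
      have : 0 ≤ (m : ℤ) * k := mul_nonneg hm0.le this
      omega
    have h4 : (m : ℤ) * k ≤ m * (-1) := mul_le_mul_of_nonneg_left h3 hm0.le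
    omega
  have hdis1 : Disjoint (((Icc (-(x : ℤ)) x).filter (fun v : ℤ => v = a))) ((Ioc a x).filter (fun v : ℤ => (m : ℤ) ∣ v - a)) := by
    rw [Finset.disjoint_left]
    intro v h3 h4
    rw [mem_filter] at h3
    rw [mem_filter, mem_Ioc] at h4
    omega
  have hdis2 : Disjoint ((Ico (-(x : ℤ)) a).filter (fun v : ℤ => (m : ℤ) ∣ v - a))
      (((Icc (-(x : ℤ)) x).filter (fun v : ℤ => v = a)) ∪ (Ioc a x).filter (fun v : ℤ => (m : ℤ) ∣ v - a)) := by
    rw [Finset.disjoint_left]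
    intro v h3 h4
    rw [mem_filter, mem_Ico] at h3
    rw [mem_union, mem_filter, mem_filter, mem_Ioc] at h4
    omega
  have hsum : PS f A m a x = ∑ v ∈ (Ico (-(x : ℤ)) a).filter (fun v : ℤ => (m : ℤ) ∣ v - a), F v +
      (∑ v ∈ (Icc (-(x : ℤ)) x).filter (fun v : ℤ => v = a), F v +
        ∑ v ∈ (Ioc a x).filter (fun v : ℤ => (m : ℤ) ∣ v - a), F v) := by
    unfold PS
    rw [hsplit, hneg, sum_union hdis2, sum_union hdis1]
  -- the middle
  have hmid : |∑ v ∈ (Icc (-(x : ℤ)) x).filter (fun v : ℤ => v = a), F v| ≤ 1 := by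
    have h3 : ((Icc (-(x : ℤ)) x).filter (fun v : ℤ => v = a)).card ≤ 1 := by
      apply Finset.card_le_one.2
      intro v hv w hw
      rw [mem_filter] at hv hw
      rw [hv.2, hw.2]
    refine (abs_sum_le_sum_abs _ _).trans ((sum_le_card_nsmul _ _ _ fun v _ => Li_abs _).trans ?_)
    rw [nsmul_eq_mul, mul_one]
    exact_mod_cast h3
  -- positive side
  have hpos : |∑ v ∈ (Ioc a x).filter (fun v : ℤ => (m : ℤ) ∣ v - a), F v| ≤
      (N : ℝ) ^ (1 / (f.natDegree : ℝ)) / Real.log N ^ B := by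
    rw [prog_pos F hm a x]
    have h3 : (((x : ℤ) - a) / m).toNat ≤ x := by
      have h4 : ((x : ℤ) - a) / m ≤ x := by
        apply Int.ediv_le_of_le_mul hm0
        have : (x : ℤ) * 1 ≤ x * m := by
          apply mul_le_mul_of_nonneg_left _ (by omega)
          omega
        omega
      omega
    have h5 := h1 _ (show (((x : ℤ) - a) / m).toNat ^ (pp f m a).natDegree ≤ N by
      rw [pp_deg f hmne]
      exact (Nat.pow_le_pow_left h3 _).trans hx)
    rw [pp_deg f hmne] at h5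
    refine le_trans (le_of_eq ?_) h5
    congr 1
    apply sum_congr rfl
    intro t _
    rw [pp_eval]
  -- negative side
  have hngs : |∑ v ∈ (Ico (-(x : ℤ)) a).filter (fun v : ℤ => (m : ℤ) ∣ v - a), F v| ≤
      (N : ℝ) ^ (1 / (f.natDegree : ℝ)) / Real.log N ^ B := by
    have e1 : ∑ v ∈ (Ico (-(x : ℤ)) a).filter (fun v : ℤ => (m : ℤ) ∣ v - a), F v =
        ∑ v ∈ (Ioc (-a) x).filter (fun v : ℤ => (m : ℤ) ∣ v - (-a)), F (-v) := by
      apply sum_nbij' (fun v : ℤ => -v) (fun v : ℤ => -v)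
      · intro v hv
        rw [mem_filter, mem_Ico] at hv
        rw [mem_filter, mem_Ioc]
        refine ⟨⟨by omega, by omega⟩, ?_⟩
        have : -v - -a = -(v - a) := by ring
        rw [this]
        exact (dvd_neg).2 hv.2
      · intro v hv
        rw [mem_filter, mem_Ioc] at hv
        rw [mem_filter, mem_Ico]
        refine ⟨⟨by omega, by omega⟩, ?_⟩
        have : -v - a = -(v - -a) := by ring
        rw [this]
        exact (dvd_neg).2 hv.2
      · intro v _
        exact neg_neg v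
      · intro v _
        exact neg_neg v
      · intro v _
        rw [neg_neg]
    rw [e1, prog_pos (fun v => F (-v)) hm (-a) x]
    have h3 : (((x : ℤ) - -a) / m).toNat ≤ x := by
      rcases Nat.eq_zero_or_pos x with hx0 | hx0
      · subst hx0
        have : ((((0 : ℕ) : ℤ) - -a) / m) = 0 := by
          apply Int.ediv_eq_zero_of_lt <;> omega
        rw [this]
        simp
      · have h4 : ((x : ℤ) - -a) / m ≤ x := by
          have h5 : ((x : ℤ) - -a) / m < x + 1 := by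
            apply Int.ediv_lt_of_lt_mul hm0
            have h6 : (0 : ℤ) ≤ (x : ℤ) * (m - 1) := mul_nonneg (by omega) (by omega)
            have h7 : ((x : ℤ) + 1) * m = x * (m - 1) + x + m := by ring
            rw [h7]
            omega
          omega
        omega
    have h5 := h2 _ (show (((x : ℤ) - -a) / m).toNat ^ (pp f (-m) a).natDegree ≤ N by
      rw [pp_deg f (neg_ne_zero.2 hmne)]
      exact (Nat.pow_le_pow_left h3 _).trans hx)
    rw [pp_deg f (neg_ne_zero.2 hmne)] at h5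
    refine le_trans (le_of_eq ?_) h5
    congr 1
    apply sum_congr rfl
    intro t _
    rw [pp_eval]
    simp only [hF]
    congr 3
    ring
  rw [hsum]
  have k1 := abs_le.1 hmid
  have k2 := abs_le.1 hpos
  have k3 := abs_le.1 hngs
  rw [abs_le]
  constructor <;> linarith

/-- the conclusion for one constant -/
def GoodA (f : Polynomial ℤ) (m0 B N : ℕ) (A : ℤ) : Prop := ∀ (m : ℕ) (a : ℤ) (x : ℕ), 1 ≤ m → m ≤ m0 →
  x ^ f.natDegree ≤ N → |PS f A m a x| ≤ (N : ℝ) ^ (1 / (f.natDegree : ℝ)) / Real.log N ^ B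

open Classical in
/-- **most scales** -/
theorem final_of {hO : ∀ c0 : ℝ, 0 < c0 → c0 ≤ 1 → ∀ f : Polynomial ℤ, 2 ≤ f.natDegree → 0 < f.leadingCoeff →
    ∀ B : ℕ, Fam c0 B (fun g => g = f)} (f : Polynomial ℤ) (hd : 2 ≤ f.natDegree) (m0 B : ℕ) {ε : ℝ} (hε : 0 < ε) :
    ∃ c : ℝ, 0 < c ∧ Most ε (fun N => ∀ M : ℕ, M ≤ N → (N : ℝ) ≤ sav c N * M →
      (((Icc (-(M : ℤ)) M).filter (fun A => ¬ GoodA f m0 B N A)).card : ℝ) ≤ M / sav c N) := by
  obtain ⟨c0, hc0, hc01, hGS⟩ := most_GS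
  set S : Finset (Polynomial ℤ) := (((Icc 1 (m0 + 1)) ×ˢ (range (m0 + 1))).image (fun p : ℕ × ℕ => pp f p.1 p.2)) ∪
    (((Icc 1 (m0 + 1)) ×ˢ (range (m0 + 1))).image (fun p : ℕ × ℕ => pp f (-(p.1 : ℤ)) p.2)) with hS
  have hSd : ∀ g ∈ S, 2 ≤ g.natDegree := by
    intro g hg
    rw [hS, mem_union, mem_image, mem_image] at hg
    rcases hg with ⟨p, hp, rfl⟩ | ⟨p, hp, rfl⟩
    · rw [mem_product, mem_Icc] at hp
      rw [pp_deg f (by exact_mod_cast (by omega : p.1 ≠ 0))]
      exact hd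
    · rw [mem_product, mem_Icc] at hp
      rw [pp_deg f (neg_ne_zero.2 (by exact_mod_cast (by omega : p.1 ≠ 0)))]
      exact hd
  have hSne : S.Nonempty := by
    refine ⟨pp f (1 : ℕ) (0 : ℕ), ?_⟩
    rw [hS, mem_union]
    left
    rw [mem_image]
    exact ⟨(1, 0), by rw [mem_product, mem_Icc, mem_range]; simp, rfl⟩
  obtain ⟨c1, hc1, h1⟩ := fam_finset (c0 := c0) (B := B + 1) (fun f hd hl => hO c0 hc0 hc01 f hd hl (B + 1)) S hSd hSne
  obtain ⟨c', hc', hM⟩ := hGS c1 hc1 (ε / 2) (by positivity)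
  obtain ⟨c, hc, N1, h2⟩ := h1 c' hc'
  -- large `N`
  set d : ℕ := f.natDegree with hdd
  have hd0 : (0 : ℝ) < d := by
    have : 0 < d := by omega
    exact_mod_cast this
  have x1 : ∀ᶠ X : ℝ in atTop, 2 * X ^ B ≤ Real.exp (1 / d * X) :=
    Pool.Agent.P8H14.CF.ev_pow_exp B (1 / d) 2 (by positivity) (by norm_num)
  obtain ⟨N2, hN2⟩ := eventually_atTop.1 ((Real.tendsto_log_atTop.comp tendsto_natCast_atTop_atTop).eventually
    (x1.and (eventually_ge_atTop (4 : ℝ))))
  refine ⟨c / 2, by positivity, most_mono (N₁ := max N1 (max N2 10)) hε hM fun N hN hG M hMN hNM => ?_⟩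
  have e1 : N1 ≤ N := (le_max_left _ _).trans hN
  have e2 : N2 ≤ N := (le_max_left _ _).trans ((le_max_right _ _).trans hN)
  have e3 : 10 ≤ N := (le_max_right _ _).trans ((le_max_right _ _).trans hN)
  obtain ⟨a1, a2⟩ := hN2 N e2
  simp only [Function.comp] at a1 a2
  obtain ⟨E, hE, h3⟩ := h2 N e1 hG
  set X : ℝ := Real.log (N : ℝ) with hX
  have hXp : 0 < X := by linarith
  have hN0 : (0 : ℝ) < N := by
    have : 0 < N := by omega
    exact_mod_cast this
  set ρ : ℝ := (N : ℝ) ^ (1 / (d : ℝ)) with hρ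
  have hρe : ρ = Real.exp (1 / d * X) := by
    rw [hρ, Real.rpow_def_of_pos hN0, ← hX]
    congr 1
    ring
  have hρ0 : 0 < ρ := by rw [hρe]; exact Real.exp_pos _
  have hsub : (Icc (-(M : ℤ)) M).filter (fun A => ¬ GoodA f m0 B N A) ⊆ E := by
    intro A hA
    rw [mem_filter, mem_Icc] at hA
    by_contra hcon
    apply hA.2
    have hA' : A ∈ Icc (-(N : ℤ)) N := by
      rw [mem_Icc]
      have : (M : ℤ) ≤ N := by exact_mod_cast hMN
      omega
    have h4 := h3 A hA' hcon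
    intro m a x hm hmm hx
    -- reduce `a` modulo `m`
    have hm0 : (0 : ℤ) < m := by exact_mod_cast hm
    have hr0 : 0 ≤ a % m := Int.emod_nonneg _ hm0.ne'
    have hrm : a % m < m := Int.emod_lt_of_pos _ hm0
    obtain ⟨r, hr⟩ : ∃ r : ℕ, (r : ℤ) = a % m := ⟨(a % m).toNat, Int.toNat_of_nonneg hr0⟩
    have hPS : PS f A m a x = PS f A m (r : ℤ) x := by
      unfold PS
      apply sum_congr _ fun _ _ => rfl
      apply filter_congr
      intro v _
      have h5 : v - a = (v - r) - m * (a / m) := by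
        have := Int.mul_ediv_add_emod a m
        rw [hr]
        linarith
      rw [h5]
      exact ⟨fun h => by
        have := dvd_add h (dvd_mul_right (m : ℤ) (a / m))
        rwa [sub_add_cancel] at this, fun h => dvd_sub h (dvd_mul_right _ _)⟩
    have hpS : pp f m (r : ℤ) ∈ S := by
      rw [hS, mem_union]
      left
      rw [mem_image]
      exact ⟨(m, r), by rw [mem_product, mem_Icc, mem_range]; simp only; omega, rfl⟩
    have hpS' : pp f (-(m : ℤ)) (r : ℤ) ∈ S := by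
      rw [hS, mem_union]
      right
      rw [mem_image]
      exact ⟨(m, r), by rw [mem_product, mem_Icc, mem_range]; simp only; omega, rfl⟩
    have h5 := PS_le f hm (a := (r : ℤ)) (by omega) (by omega) (h4 _ hpS) (h4 _ hpS') hx (by omega)
    rw [hPS]
    refine h5.trans ?_
    rw [← hdd, ← hρ, ← hX]
    have h6 : 1 ≤ ρ / X ^ B / 2 := by
      rw [le_div_iff₀ (by norm_num), le_div_iff₀ (by positivity), hρe]
      linarith
    have h7 : 2 * (ρ / X ^ (B + 1)) ≤ ρ / X ^ B / 2 := by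
      rw [pow_succ, ← div_div]
      have h8 : 0 ≤ ρ / X ^ B := by positivity
      rw [← mul_div_assoc, div_le_div_iff₀ hXp (by norm_num)]
      calc 2 * (ρ / X ^ B) * 2 = ρ / X ^ B * 4 := by ring
        _ ≤ ρ / X ^ B * X := by gcongr
    linarith
  have hs0 : 0 < sav (c / 2) N := Real.exp_pos _
  have hs : sav c N = sav (c / 2) N * sav (c / 2) N := by
    rw [Pool.Agent.P8H14.QP.Len.sav_mul]
    congr 1
    ring
  calc (((Icc (-(M : ℤ)) M).filter (fun A => ¬ GoodA f m0 B N A)).card : ℝ) ≤ E.card := by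
        exact_mod_cast card_le_card hsub
    _ ≤ N / sav c N := hE
    _ ≤ M / sav (c / 2) N := by
        rw [hs, ← div_div, div_le_div_iff_of_pos_right hs0, div_le_iff₀ hs0]
        linarith

end Pool.Agent.P8H14.GL
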