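import Pool.Agent.P8H14.GL.M3
import Pool.Agent.P8H7.GL.Gro
import Pool.Agent.P8H7.GL.Gab
import Pool.Agent.P8H7.GL.Gdu
import Pool.Agent.P8H5.GL.Maj
import Pool.Agent.P8H53.GL.Gtt
import Pool.Agent.P8H54.GL.Lq
import Pool.Agent.P8H54.GL.Lcs
import Pool.Agent.P8H4.GL.Rho
import Pool.Agent.P8H4.GL.W

set_option autoImplicit false

/-!
# Project GL: the theorem
-/

open Finset Filter Topology

namespace Pool.Agent.P8H14.GL

open Pool.Agent.P8H14.QP (sav)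
open Pool.Agent.TH823.PS (Most)

open Classical in
/-- **the Liouville function at `f(v) + A`, most scales, almost all `A`** -/
theorem final (f : Polynomial ℤ) (hd : 2 ≤ f.natDegree) (m0 B : ℕ) {ε : ℝ} (hε : 0 < ε) :
    ∃ c : ℝ, 0 < c ∧ Most ε (fun N => ∀ M : ℕ, M ≤ N → (N : ℝ) ≤ sav c N * M →
      (((Icc (-(M : ℤ)) M).filter (fun A => ¬ GoodA f m0 B N A)).card : ℝ) ≤ M / sav c N) :=
  final_of (hO := fun _ hc0 hc01 g hg hl B' => by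
    obtain ⟨c1, hc1, h1⟩ := one_f Pool.Agent.P8H7.GL.gro
      (Pool.Agent.P8H53.GL.gtt Pool.Agent.P8H5.GL.gmaj Pool.Agent.P8H5.GL.gvb) Pool.Agent.P8H7.GL.gdu
      Pool.Agent.P8H7.GL.gab (Pool.Agent.P8H54.GL.glcs Pool.Agent.P8H54.GL.glq Pool.Agent.P8H4.GL.grho)
      Pool.Agent.P8H4.GL.gw hc0 hc01 g hg hl B'
    refine ⟨c1, hc1, fun c' hc' => ?_⟩
    obtain ⟨c, hc, N1, h2⟩ := h1 c' hc'
    refine ⟨c, hc, N1, fun N hN hG => ?_⟩
    obtain ⟨E, hE, h3⟩ := h2 N hN hG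
    refine ⟨E, hE, fun A hA hAE k hk => ?_⟩
    subst hk
    exact h3 A hA hAE) f hd m0 B hε


end Pool.Agent.P8H14.GL
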